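import Mathlib

set_option linter.style.longLine false
set_option linter.unusedVariables false

open Complex Set Filter Metric Topology

namespace Pool.Agent.Lib.MP_74947d_an

/-- the map `f(z) = z^2 exp(z+2)` -/
noncomputable def f (z : ℂ) : ℂ := z ^ 2 * Complex.exp (z + 2)

/-- the escaping set of `f` -/
def Esc : Set ℂ := {z | Tendsto (fun n : ℕ => f^[n] z) atTop (cocompact ℂ)}

lemma f_ofReal (x : ℝ) : f (x : ℂ) = ((x ^ 2 * Real.exp (x + 2) : ℝ) : ℂ) := by
  unfold f; push_cast; rfl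

lemma f_conj (z : ℂ) : f ((starRingEnd ℂ) z) = (starRingEnd ℂ) (f z) := by
  unfold f
  rw [map_mul, map_pow, ← Complex.exp_conj, map_add, map_ofNat]

lemma norm_f (z : ℂ) : ‖f z‖ = ‖z‖ ^ 2 * Real.exp (z.re + 2) := by
  unfold f
  rw [norm_mul, norm_pow, Complex.norm_exp]
  simp

lemma differentiable_f : Differentiable ℂ f := by
  unfold f
  fun_prop

lemma continuous_f : Continuous f := differentiable_f.continuous

lemma exists_x1 : ∃ x : ℝ, 0 < x ∧ x < 1 ∧ x * Real.exp (x + 2) = 1 := by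
  have hc : ContinuousOn (fun x : ℝ => x * Real.exp (x + 2)) (Icc 0 1) := by fun_prop
  have h1 : (1:ℝ) ∈ Ioo ((fun x : ℝ => x * Real.exp (x + 2)) 0) ((fun x : ℝ => x * Real.exp (x + 2)) 1) := by
    constructor
    · simp
    · simp only [one_mul]
      exact Real.one_lt_exp_iff.mpr (by norm_num)
  obtain ⟨x, hx, hx2⟩ := intermediate_value_Ioo zero_le_one hc h1
  exact ⟨x, hx.1, hx.2, hx2⟩

/-- the repelling fixed point on the positive axis -/
noncomputable def x1 : ℝ := Classical.choose exists_x1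

lemma x1_pos : 0 < x1 := (Classical.choose_spec exists_x1).1
lemma x1_lt_one : x1 < 1 := (Classical.choose_spec exists_x1).2.1
lemma x1_eq : x1 * Real.exp (x1 + 2) = 1 := (Classical.choose_spec exists_x1).2.2

lemma phi_gt {x : ℝ} (hx : x1 < x) : 1 < x * Real.exp (x + 2) := by
  rw [← x1_eq]
  have := x1_pos
  apply mul_lt_mul hx (Real.exp_le_exp.mpr (by linarith)) (Real.exp_pos _) (by linarith)

lemma phi_le {x : ℝ} (h0 : 0 ≤ x) (hx : x ≤ x1) : x * Real.exp (x + 2) ≤ 1 := by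
  rw [← x1_eq]
  apply mul_le_mul hx (Real.exp_le_exp.mpr (by linarith)) (Real.exp_pos _).le x1_pos.le

/-- real map -/
noncomputable def fr (x : ℝ) : ℝ := x ^ 2 * Real.exp (x + 2)

lemma f_ofReal' (x : ℝ) : f (x : ℂ) = ((fr x : ℝ) : ℂ) := f_ofReal x

lemma fr_eq (x : ℝ) : fr x = x * (x * Real.exp (x + 2)) := by unfold fr; ring

lemma fr_gt {x : ℝ} (hx : x1 < x) : x < fr x := by
  rw [fr_eq]
  have := phi_gt hx
  have h0 := x1_pos
  nlinarith

lemma fr_le {x : ℝ} (h0 : 0 ≤ x) (hx : x ≤ x1) : fr x ≤ x := by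
  rw [fr_eq]
  have := phi_le h0 hx
  nlinarith

lemma fr_nonneg (x : ℝ) : 0 ≤ fr x := by unfold fr; positivity

lemma fr_gt_x1_iff {x : ℝ} (h0 : 0 ≤ x) : x1 < fr x ↔ x1 < x := by
  constructor
  · intro h
    by_contra hx
    have := fr_le h0 (not_lt.mp hx)
    linarith [not_lt.mp hx]
  · intro h
    linarith [fr_gt h]

lemma iterate_f_ofReal (n : ℕ) (x : ℝ) : f^[n] (x : ℂ) = ((fr^[n] x : ℝ) : ℂ) := by
  induction n generalizing x with
  | zero => simp
  | succ n ih => rw [Function.iterate_succ_apply, Function.iterate_succ_apply, f_ofReal', ih]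

lemma mem_Esc_iff {z : ℂ} : z ∈ Esc ↔ Tendsto (fun n : ℕ => ‖f^[n] z‖) atTop atTop := by
  unfold Esc
  rw [mem_ofPred_eq, ← Metric.cobounded_eq_cocompact, ← comap_norm_atTop, tendsto_comap_iff]
  rfl

lemma f_mem_Esc_iff {z : ℂ} : f z ∈ Esc ↔ z ∈ Esc := by
  rw [mem_Esc_iff, mem_Esc_iff]
  constructor
  · intro h
    rw [← tendsto_add_atTop_iff_nat 1]
    simpa only [Function.iterate_succ_apply] using h
  · intro h
    have := (tendsto_add_atTop_iff_nat 1).mpr h
    simpa only [Function.iterate_succ_apply] using this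

lemma iterate_mem_Esc_iff {z : ℂ} (n : ℕ) : f^[n] z ∈ Esc ↔ z ∈ Esc := by
  induction n generalizing z with
  | zero => simp
  | succ n ih => rw [Function.iterate_succ_apply, ih, f_mem_Esc_iff]

/-- positive half line -/
def X : Set ℂ := {z | 0 ≤ z.re ∧ z.im = 0}

/-- the escaping part of the half line -/
def X' : Set ℂ := {z | x1 < z.re ∧ z.im = 0}

lemma X'_sub_X : X' ⊆ X := fun z hz => ⟨by linarith [hz.1, x1_pos], hz.2⟩

lemma mem_X_iff {z : ℂ} : z ∈ X ↔ ∃ x : ℝ, 0 ≤ x ∧ z = x := by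
  constructor
  · intro h
    exact ⟨z.re, h.1, Complex.ext (by simp) (by simp [h.2])⟩
  · rintro ⟨x, hx, rfl⟩
    exact ⟨by simpa using hx, by simp⟩

lemma mem_X'_iff {z : ℂ} : z ∈ X' ↔ ∃ x : ℝ, x1 < x ∧ z = x := by
  constructor
  · intro h
    exact ⟨z.re, h.1, Complex.ext (by simp) (by simp [h.2])⟩
  · rintro ⟨x, hx, rfl⟩
    exact ⟨by simpa using hx, by simp⟩

lemma isClosed_X : IsClosed X := by
  have h1 : IsClosed {z : ℂ | 0 ≤ z.re} := isClosed_le continuous_const Complex.continuous_re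
  have h2 : IsClosed {z : ℂ | z.im = 0} := isClosed_eq Complex.continuous_im continuous_const
  exact h1.inter h2

lemma fr_iterate_ge {x : ℝ} (hx : x1 < x) (n : ℕ) : x * (x * Real.exp (x + 2)) ^ n ≤ fr^[n] x ∧ x ≤ fr^[n] x := by
  induction n with
  | zero => simp
  | succ n ih =>
    rw [Function.iterate_succ_apply']
    have h1 := phi_gt hx
    have h0 := x1_pos
    have hx0 : 0 < x := h0.trans hx
    have h2 : x ≤ fr^[n] x := ih.2
    have h3 : x1 < fr^[n] x := lt_of_lt_of_le hx h2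
    have h4 : x * Real.exp (x + 2) ≤ fr^[n] x * Real.exp (fr^[n] x + 2) := 
      mul_le_mul h2 (Real.exp_le_exp.mpr (by linarith)) (Real.exp_pos _).le (by linarith)
    constructor
    · rw [fr_eq, pow_succ, ← mul_assoc]
      exact mul_le_mul ih.1 h4 (by linarith) (by linarith)
    · linarith [fr_gt h3]

lemma X'_sub_Esc : X' ⊆ Esc := by
  intro z hz
  obtain ⟨x, hx, rfl⟩ := mem_X'_iff.mp hz
  rw [mem_Esc_iff]
  have h1 := phi_gt hx
  have h0 := x1_pos
  have hx0 : 0 < x := h0.trans hx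
  have h2 : Tendsto (fun n : ℕ => x * (x * Real.exp (x + 2)) ^ n) atTop atTop := 
    (tendsto_pow_atTop_atTop_of_one_lt h1).const_mul_atTop hx0
  apply tendsto_atTop_mono _ h2
  intro n
  rw [iterate_f_ofReal, Complex.norm_real]
  exact (fr_iterate_ge hx n).1.trans (Real.le_norm_self _)

lemma fr_iterate_le {x : ℝ} (h0 : 0 ≤ x) (hx : x ≤ x1) (n : ℕ) : 0 ≤ fr^[n] x ∧ fr^[n] x ≤ x1 := by
  induction n with
  | zero => simp [h0, hx]
  | succ n ih =>
    rw [Function.iterate_succ_apply']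
    exact ⟨fr_nonneg _, (fr_le ih.1 ih.2).trans ih.2⟩

lemma not_mem_Esc_of_le {x : ℝ} (h0 : 0 ≤ x) (hx : x ≤ x1) : (x : ℂ) ∉ Esc := by
  rw [mem_Esc_iff]
  intro h
  obtain ⟨n, hn⟩ := (h.eventually_gt_atTop x1).exists
  rw [iterate_f_ofReal, Complex.norm_real, Real.norm_of_nonneg (fr_iterate_le h0 hx n).1] at hn
  linarith [(fr_iterate_le h0 hx n).2]

lemma X_inter_Esc {z : ℂ} (hz : z ∈ X) (hE : z ∈ Esc) : z ∈ X' := by
  obtain ⟨x, hx, rfl⟩ := mem_X_iff.mp hz
  rw [mem_X'_iff]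
  refine ⟨x, ?_, rfl⟩
  by_contra h
  exact not_mem_Esc_of_le hx (not_lt.mp h) hE

lemma f_mem_X' {z : ℂ} (hz : z ∈ X') : f z ∈ X' := by
  obtain ⟨x, hx, rfl⟩ := mem_X'_iff.mp hz
  rw [mem_X'_iff, f_ofReal']
  exact ⟨_, by linarith [fr_gt hx], rfl⟩

lemma iterate_conj (n : ℕ) (z : ℂ) : f^[n] ((starRingEnd ℂ) z) = (starRingEnd ℂ) (f^[n] z) := by
  induction n generalizing z with
  | zero => simp
  | succ n ih => rw [Function.iterate_succ_apply, Function.iterate_succ_apply, f_conj, ih]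

lemma conj_mem_Esc {z : ℂ} : (starRingEnd ℂ) z ∈ Esc ↔ z ∈ Esc := by
  rw [mem_Esc_iff, mem_Esc_iff]
  simp only [iterate_conj, RCLike.norm_conj]

lemma conj_mem_X {z : ℂ} : (starRingEnd ℂ) z ∈ X ↔ z ∈ X := by
  simp [X]

lemma conj_mem_X' {z : ℂ} : (starRingEnd ℂ) z ∈ X' ↔ z ∈ X' := by
  simp [X']

/-- f is not a polynomial -/
lemma not_poly : ¬ ∃ p : Polynomial ℂ, ∀ z : ℂ, f z = p.eval z := by
  rintro ⟨p, hp⟩
  have h1 : p = Polynomial.X ^ 2 := by
    apply Polynomial.eq_of_infinite_eval_eq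
    have hinf : (Set.range (fun k : ℕ => (2 * Real.pi * k * I - 2 : ℂ))).Infinite := by
      apply Set.infinite_range_of_injective
      intro a b hab
      simp only [sub_left_inj] at hab
      have h2 : (2 * (Real.pi:ℂ) * I) ≠ 0 := Complex.two_pi_I_ne_zero
      have h3 : (2 * (Real.pi:ℂ) * I) * a = (2 * (Real.pi:ℂ) * I) * b := by linear_combination hab
      exact_mod_cast mul_left_cancel₀ h2 h3
    apply hinf.mono
    rintro _ ⟨k, rfl⟩
    simp only [mem_ofPred_eq, Polynomial.eval_pow, Polynomial.eval_X]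
    rw [← hp]
    unfold f
    have : Complex.exp (2 * Real.pi * k * I - 2 + 2) = 1 := by
      rw [Complex.exp_eq_one_iff]
      exact ⟨k, by push_cast; ring⟩
    rw [this, mul_one]
  have h2 := hp 1
  rw [h1] at h2
  unfold f at h2
  simp only [one_pow, one_mul, Polynomial.eval_pow, Polynomial.eval_X] at h2
  have h3 : ‖Complex.exp (1 + 2)‖ = 1 := by rw [h2]; simp
  rw [Complex.norm_exp] at h3
  have h4 : (1:ℝ) < Real.exp ((1:ℂ) + 2).re := by
    apply Real.one_lt_exp_iff.mpr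
    simp; norm_num
  linarith

/-- the unbounded continuum in the complement -/
lemma exists_K : ∃ K : Set ℂ, IsClosed K ∧ IsConnected K ∧ ¬ Bornology.IsBounded K ∧ K ⊆ Escᶜ := by
  -- find M
  have hlim : Tendsto (fun t : ℝ => t ^ 2 * Real.exp (-t + 2)) atTop (𝓝 0) := by
    have h1 := Real.tendsto_pow_mul_exp_neg_atTop_nhds_zero 2
    have h2 := h1.mul_const (Real.exp 2)
    rw [zero_mul] at h2
    refine h2.congr ?_
    intro t
    rw [Real.exp_add]; ring
  have h1 := hlim.eventually_lt_const x1_pos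
  obtain ⟨M, hM⟩ := (eventually_atTop.mp h1)
  refine ⟨(fun x : ℝ => (x : ℂ)) '' Iic (-M), ?_, ?_, ?_, ?_⟩
  · exact Complex.isometry_ofReal.isClosedEmbedding.isClosedMap _ isClosed_Iic
  · exact (isConnected_Iic).image _ Complex.continuous_ofReal.continuousOn
  · intro hb
    obtain ⟨C, hC⟩ := hb.exists_norm_le
    have h2 := hC (((min (-M) (-(|C| + 1)) : ℝ) : ℂ)) ⟨min (-M) (-(|C| + 1)), mem_Iic.mpr (min_le_left _ _), rfl⟩
    rw [Complex.norm_real, Real.norm_eq_abs] at h2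
    have h3 : min (-M) (-(|C| + 1)) ≤ -(|C| + 1) := min_le_right _ _
    have h4 := neg_le_abs (min (-M) (-(|C| + 1)))
    have h5 := le_abs_self C
    linarith
  · rintro _ ⟨x, hx, rfl⟩
    simp only [mem_compl_iff]
    rw [← f_mem_Esc_iff, f_ofReal']
    apply not_mem_Esc_of_le (fr_nonneg x)
    have h2 := hM (-x) (by simp only [mem_Iic] at hx; linarith)
    unfold fr
    simp only [neg_neg, even_two, Even.neg_pow] at h2
    exact h2.le
end Pool.Agent.Lib.MP_74947d_an
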