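import Mathlib
import Pool.Agent.Lib.MP_74947d_an.Basic

set_option linter.style.longLine false
set_option linter.unusedVariables false

open Complex Set Filter Metric Topology

namespace Pool.Agent.Lib.MP_74947d_an

/-- open upper half plane -/
def HP : Set ℂ := {z | 0 < z.im}

/-- closed upper half plane without the origin -/
def CH : Set ℂ := {z | 0 ≤ z.im ∧ z ≠ 0}

lemma HP_sub_CH : HP ⊆ CH := by
  intro z hz
  refine ⟨le_of_lt hz, ?_⟩
  rintro rfl
  simp [HP] at hz

/-- logarithm of `f` -/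
noncomputable def L (z : ℂ) : ℂ := z + 2 + 2 * Complex.log (-I * z) + Real.pi * I

lemma re_negI (z : ℂ) : (-I * z).re = z.im := by simp
lemma im_negI (z : ℂ) : (-I * z).im = -z.re := by simp
lemma norm_negI (z : ℂ) : ‖-I * z‖ = ‖z‖ := by simp

lemma mem_slit {z : ℂ} (hz : z ∈ CH) : -I * z ∈ slitPlane := by
  rw [mem_slitPlane_iff, re_negI, im_negI]
  rcases lt_or_eq_of_le hz.1 with h | h
  · exact Or.inl h
  · right
    intro h2
    apply hz.2
    apply Complex.ext
    · simpa using h2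
    · simp [← h]

lemma exp_L {z : ℂ} (hz : z ≠ 0) : Complex.exp (L z) = f z := by
  unfold L f
  have h1 : -I * z ≠ 0 := by simp [hz]
  rw [Complex.exp_add, Complex.exp_add, Complex.exp_pi_mul_I]
  have h2 : Complex.exp (2 * Complex.log (-I * z)) = (-I * z) ^ 2 := by
    rw [two_mul, Complex.exp_add, Complex.exp_log h1]; ring
  rw [h2]
  have h3 : (-I * z) ^ 2 = - z ^ 2 := by
    rw [mul_pow, neg_pow_two, Complex.I_sq]; ring
  rw [h3]; ring

lemma L_im (z : ℂ) : (L z).im = z.im + 2 * Complex.arg (-I * z) + Real.pi := by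
  unfold L
  simp [Complex.log_im]

lemma L_re (z : ℂ) : (L z).re = z.re + 2 + 2 * Real.log ‖z‖ := by
  unfold L
  simp [Complex.log_re]

lemma hasStrictDerivAt_L {z : ℂ} (hz : z ∈ CH) : HasStrictDerivAt L (1 + 2 / z) z := by
  have h1 : HasStrictDerivAt (fun z : ℂ => -I * z) (-I) z := by
    simpa using (hasStrictDerivAt_id z).const_mul (-I)
  have h2 := (Complex.hasStrictDerivAt_log (mem_slit hz)).comp z h1
  have h3 := (((hasStrictDerivAt_id z).add_const 2).add (h2.const_mul 2)).add_const ((Real.pi : ℂ) * I)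
  have e : (1 : ℂ) + 2 * ((-I * z)⁻¹ * -I) = 1 + 2 / z := by
    have hz0 := hz.2
    have hI : I ≠ 0 := I_ne_zero
    field_simp
  rw [e] at h3
  exact h3

lemma continuousAt_L {z : ℂ} (hz : z ∈ CH) : ContinuousAt L z := 
  (hasStrictDerivAt_L hz).hasDerivAt.continuousAt

lemma arg_bd {z : ℂ} (hz : z ∈ CH) : |Complex.arg (-I * z)| ≤ Real.pi / 2 := by
  rw [Complex.abs_arg_le_pi_div_two_iff, re_negI]
  exact hz.1

lemma arg_bd' {z : ℂ} (hz : z ∈ HP) : |Complex.arg (-I * z)| < Real.pi / 2 := by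
  rw [Complex.abs_arg_lt_pi_div_two_iff, re_negI]
  left; exact hz

lemma L_im_ge {z : ℂ} (hz : z ∈ CH) : z.im ≤ (L z).im := by
  rw [L_im]
  have := (abs_le.mp (arg_bd hz)).1
  linarith

lemma L_im_le {z : ℂ} (hz : z ∈ CH) : (L z).im ≤ z.im + 2 * Real.pi := by
  rw [L_im]
  have := (abs_le.mp (arg_bd hz)).2
  linarith

lemma L_im_pos {z : ℂ} (hz : z ∈ HP) : 0 < (L z).im := 
  lt_of_lt_of_le hz (L_im_ge (HP_sub_CH hz))

lemma L_pos {x : ℝ} (hx : 0 < x) : L (x : ℂ) = ((x + 2 + 2 * Real.log x : ℝ) : ℂ) := by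
  apply Complex.ext
  · rw [L_re, Complex.norm_real, Real.norm_of_nonneg hx.le]; simp
  · rw [L_im]
    have : Complex.arg (-I * x) = -(Real.pi / 2) := by
      rw [mul_comm, mul_neg, ← neg_mul, ]
      have := Complex.arg_real_mul (-I) hx
      rw [Complex.arg_neg_I] at this
      rw [← this]
      congr 1; ring
    rw [this]
    simp; ring

lemma L_neg {x : ℝ} (hx : x < 0) : L (x : ℂ) = ((x + 2 + 2 * Real.log (-x) : ℝ) : ℂ) + 2 * Real.pi * I := by
  apply Complex.ext
  · rw [L_re, Complex.norm_real, Real.norm_of_nonpos hx.le]; simp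
  · rw [L_im]
    have : Complex.arg (-I * x) = (Real.pi / 2) := by
      have h := Complex.arg_real_mul I (neg_pos.mpr hx)
      rw [Complex.arg_I] at h
      rw [← h]
      congr 1; push_cast; ring
    rw [this]
    simp; ring

lemma log_fr {x : ℝ} (hx : x ≠ 0) : Real.log (fr x) = x + 2 + 2 * Real.log |x| := by
  unfold fr
  rw [Real.log_mul (by positivity) (Real.exp_pos _).ne', Real.log_exp, Real.log_pow, Real.log_abs]
  push_cast; ring

/-- the real points of CH -/
lemma CH_real {z : ℂ} (hz : z ∈ CH) (h : z.im = 0) : ∃ x : ℝ, x ≠ 0 ∧ z = x := by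
  refine ⟨z.re, ?_, Complex.ext (by simp) (by simp [h])⟩
  intro h2
  exact hz.2 (Complex.ext (by simpa using h2) (by simpa using h))

lemma L_im_eq_zero {z : ℂ} (hz : z ∈ CH) (h : (L z).im = 0) : ∃ x : ℝ, 0 < x ∧ z = x := by
  have h1 := L_im_ge hz
  have h2 : z.im = 0 := le_antisymm (by linarith) hz.1
  obtain ⟨x, hx, rfl⟩ := CH_real hz h2
  rcases lt_or_gt_of_ne hx with h3 | h3
  · exfalso
    rw [L_neg h3] at h
    simp at h
  · exact ⟨x, h3, rfl⟩

/-- injectivity of L on the upper half plane -/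
lemma L_inj : InjOn L HP := by
  intro z hz w hw hzw
  by_contra hne
  have hd : w - z ≠ 0 := sub_ne_zero.mpr (Ne.symm hne)
  set g : ℝ → ℝ := fun t => (L (z + t * (w - z)) / (w - z)).im with hg
  have hseg : ∀ t ∈ Icc (0:ℝ) 1, z + t * (w - z) ∈ HP := by
    intro t ht
    simp only [HP, mem_ofPred_eq] at hz hw ⊢
    simp only [add_im, mul_im, ofReal_re, sub_im, ofReal_im, sub_re, zero_mul, add_zero]
    have h1 := ht.1
    have h2 := ht.2
    have : z.im + t * (w.im - z.im) = (1 - t) * z.im + t * w.im := by ring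
    rw [this]
    rcases eq_or_lt_of_le h1 with h3 | h3
    · rw [← h3]; simpa using hz
    · have := mul_pos h3 hw
      have := mul_nonneg (by linarith : 0 ≤ 1 - t) hz.le
      linarith
  have hder : ∀ t ∈ Icc (0:ℝ) 1, HasDerivAt g ((1 + 2 / (z + t * (w - z))).im) t := by
    intro t ht
    have h1 := (hasStrictDerivAt_L (HP_sub_CH (hseg t ht))).hasDerivAt
    have h2 : HasDerivAt (fun t : ℝ => z + t * (w - z)) (w - z) t := by
      have := ((Complex.ofRealCLM.hasDerivAt (x := t)).mul_const (w - z)).const_add z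
      simpa using this
    have h3 := (h1.comp t h2).div_const (w - z)
    rw [mul_div_assoc, div_self hd, mul_one] at h3
    exact (Complex.imCLM.hasFDerivAt.comp_hasDerivAt t h3)
  have hneg : ∀ t ∈ Icc (0:ℝ) 1, (1 + 2 / (z + t * (w - z))).im < 0 := by
    intro t ht
    have h1 : 0 < (z + t * (w - z)).im := hseg t ht
    set y := z + t * (w - z)
    have hy : y ≠ 0 := by intro h; rw [h] at h1; simp at h1
    rw [add_im, one_im, zero_add, div_im]
    simp only [im_ofNat, zero_mul, zero_div, re_ofNat, zero_sub]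
    rw [neg_lt_zero]
    have := Complex.normSq_pos.mpr hy
    positivity
  have hanti : StrictAntiOn g (Icc 0 1) := by
    apply strictAntiOn_of_deriv_neg (convex_Icc 0 1)
    · intro t ht
      exact (hder t ht).continuousAt.continuousWithinAt
    · intro t ht
      rw [interior_Icc] at ht
      rw [(hder t (Ioo_subset_Icc_self ht)).deriv]
      exact hneg t (Ioo_subset_Icc_self ht)
  have h0 := hanti (left_mem_Icc.mpr zero_le_one) (right_mem_Icc.mpr zero_le_one) zero_lt_one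
  simp only [hg] at h0
  simp only [ofReal_one, one_mul, ofReal_zero, zero_mul, add_zero] at h0
  rw [add_sub_cancel, hzw] at h0
  exact lt_irrefl _ h0

/-- a priori bounds -/
lemma L_bounds (C : ℝ) (hC : 0 ≤ C) : ∃ δ M : ℝ, 0 < δ ∧ ∀ z ∈ CH, ‖L z‖ ≤ C → δ ≤ ‖z‖ ∧ ‖z‖ ≤ M := by
  refine ⟨Real.exp (-(C + (4 * C + 16) + 2) / 2), 4 * C + 16, Real.exp_pos _, ?_⟩
  intro z hz hL
  have hre : |(L z).re| ≤ C := (Complex.abs_re_le_norm _).trans hL
  have him : |(L z).im| ≤ C := (Complex.abs_im_le_norm _).trans hL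
  rw [abs_le] at hre him
  have h1 := L_im_ge hz
  have hz0 : 0 < ‖z‖ := norm_pos_iff.mpr hz.2
  have hzim : 0 ≤ z.im := hz.1
  rw [L_re] at hre
  have hnorm : ‖z‖ ≤ |z.re| + |z.im| := Complex.norm_le_abs_re_add_abs_im z
  rw [abs_of_nonneg hzim] at hnorm
  have hM : ‖z‖ ≤ 4 * C + 16 := by
    by_contra hlt
    push Not at hlt
    have hlog : Real.log ‖z‖ ≤ ‖z‖ / 4 + 2 := by
      have h2 : Real.log (‖z‖ / 4) ≤ ‖z‖ / 4 - 1 := Real.log_le_sub_one_of_pos (by positivity)
      rw [Real.log_div hz0.ne' (by norm_num)] at h2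
      have h3 : Real.log 4 ≤ 3 := by
        have := Real.log_le_sub_one_of_pos (by norm_num : (0:ℝ) < 4)
        linarith
      linarith
    have hlog0 : 0 ≤ Real.log ‖z‖ := Real.log_nonneg (by linarith)
    rcases le_total 0 z.re with h4 | h4
    · rw [abs_of_nonneg h4] at hnorm
      linarith [hre.2]
    · rw [abs_of_nonpos h4] at hnorm
      linarith [hre.1]
  refine ⟨?_, hM⟩
  have h5 : -(C + (4 * C + 16) + 2) / 2 ≤ Real.log ‖z‖ := by
    have h6 : z.re ≤ ‖z‖ := Complex.re_le_norm z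
    linarith [hre.1]
  calc Real.exp (-(C + (4 * C + 16) + 2) / 2) ≤ Real.exp (Real.log ‖z‖) := Real.exp_le_exp.mpr h5
    _ = ‖z‖ := Real.exp_log hz0

/-- the sublevel sets of L are compact -/
lemma isCompact_sub (C : ℝ) (hC : 0 ≤ C) : IsCompact {z | z ∈ CH ∧ ‖L z‖ ≤ C} := by
  obtain ⟨δ, M, hδ, hb⟩ := L_bounds C hC
  set K : Set ℂ := {z | 0 ≤ z.im ∧ δ ≤ ‖z‖ ∧ ‖z‖ ≤ M} with hK
  have hKc : IsCompact K := by
    apply Metric.isCompact_of_isClosed_isBounded
    · exact (isClosed_le continuous_const Complex.continuous_im).inter 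
        ((isClosed_le continuous_const continuous_norm).inter (isClosed_le continuous_norm continuous_const))
    · apply (Metric.isBounded_closedBall (x := (0:ℂ)) (r := M)).subset
      intro z hz
      simpa using hz.2.2
  have hKCH : K ⊆ CH := by
    intro z hz
    refine ⟨hz.1, ?_⟩
    rintro rfl
    have := hz.2.1
    simp at this
    linarith
  have hcont : ContinuousOn L K := fun z hz => (continuousAt_L (hKCH hz)).continuousWithinAt
  have e : {z | z ∈ CH ∧ ‖L z‖ ≤ C} = K ∩ L ⁻¹' (closedBall 0 C) := by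
    ext z
    constructor
    · rintro ⟨h1, h2⟩
      exact ⟨⟨h1.1, hb z h1 h2⟩, by simpa using h2⟩
    · rintro ⟨h1, h2⟩
      exact ⟨hKCH h1, by simpa using h2⟩
  rw [e]
  exact hKc.of_isClosed_subset (hcont.preimage_isClosed_of_isClosed hKc.isClosed isClosed_closedBall) 
    inter_subset_left

/-- L is open on HP -/
lemma L_open {U : Set ℂ} (hU : IsOpen U) (hUH : U ⊆ HP) : IsOpen (L '' U) := by
  rw [isOpen_iff_mem_nhds]
  rintro _ ⟨z, hz, rfl⟩
  have hzH : z ∈ HP := hUH hz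
  have hne : (1 + 2 / z) ≠ 0 := by
    intro h
    have him : (1 + 2 / z).im = 0 := by rw [h]; simp
    have hz0 : z ≠ 0 := (HP_sub_CH hzH).2
    have hzim : 0 < z.im := hzH
    rw [add_im, one_im, zero_add, div_im] at him
    simp only [im_ofNat, zero_mul, zero_div, re_ofNat, zero_sub] at him
    have hns := Complex.normSq_pos.mpr hz0
    have : 0 < 2 * z.im / normSq z := by positivity
    linarith
  have hmap := (hasStrictDerivAt_L (HP_sub_CH hzH)).map_nhds_eq hne
  rw [← hmap]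
  exact image_mem_map (hU.mem_nhds hz)

lemma isOpen_HP : IsOpen HP := isOpen_lt continuous_const Complex.continuous_im

/-- closure property -/
lemma closure_L {ζ : ℂ} (h : ζ ∈ closure (L '' HP)) : ∃ z ∈ CH, L z = ζ := by
  -- compactness
  set K := {z | z ∈ CH ∧ ‖L z‖ ≤ ‖ζ‖ + 1} with hK
  have hKc : IsCompact K := isCompact_sub _ (by positivity)
  have hcont : ContinuousOn L K := fun z hz => (continuousAt_L hz.1).continuousWithinAt
  have hLK : IsCompact (L '' K) := hKc.image_of_continuousOn hcont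
  have hmem : ζ ∈ closure (L '' K) := by
    rw [Metric.mem_closure_iff] at h ⊢
    intro ε hε
    obtain ⟨b, ⟨z, hz, rfl⟩, hb⟩ := h (min ε 1) (lt_min hε one_pos)
    refine ⟨L z, ⟨z, ⟨HP_sub_CH hz, ?_⟩, rfl⟩, lt_of_lt_of_le hb (min_le_left _ _)⟩
    have h1 : dist ζ (L z) < 1 := lt_of_lt_of_le hb (min_le_right _ _)
    rw [dist_comm, dist_eq_norm] at h1
    calc ‖L z‖ = ‖(L z - ζ) + ζ‖ := by ring_nf
      _ ≤ ‖L z - ζ‖ + ‖ζ‖ := norm_add_le _ _
      _ ≤ _ := by linarith
  rw [hLK.isClosed.closure_eq] at hmem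
  obtain ⟨z, hz, hz2⟩ := hmem
  exact ⟨z, hz.1, hz2⟩

lemma surj_region {S : Set ℂ} (hS : IsPreconnected S) (hne : (S ∩ L '' HP).Nonempty)
    (h0 : ∀ ζ ∈ S, ζ.im ≠ 0) (h2 : ∀ ζ ∈ S, ζ.im ≠ 2 * Real.pi) : S ⊆ L '' HP := by
  apply hS.subset_of_closure_inter_subset (L_open isOpen_HP subset_rfl) hne
  rintro ζ ⟨hζ, hζS⟩
  obtain ⟨z, hz, rfl⟩ := closure_L hζ
  rcases lt_or_eq_of_le hz.1 with h | h
  · exact ⟨z, h, rfl⟩
  · exfalso
    obtain ⟨x, hx, rfl⟩ := CH_real hz h.symm
    rcases lt_or_gt_of_ne hx with h3 | h3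
    · apply h2 _ hζS
      rw [L_neg h3]
      simp
    · apply h0 _ hζS
      rw [L_pos h3]
      simp

lemma surj_strip : {ζ : ℂ | 0 < ζ.im ∧ ζ.im < 2 * Real.pi} ⊆ L '' HP := by
  apply surj_region
  · apply Convex.isPreconnected
    exact (convex_halfSpace_im_gt 0).inter (convex_halfSpace_im_lt (2 * Real.pi))
  · -- point with im part pi
    have hpi := Real.pi_pos
    refine ⟨L ((Real.pi / 2 : ℝ) * (1 + I)), ?_, ⟨_, ?_, rfl⟩⟩
    · simp only [mem_ofPred_eq]
      rw [L_im]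
      have e : -I * ((Real.pi / 2 : ℝ) * (1 + I)) = ((Real.pi / 2 : ℝ) : ℂ) * (1 - I) := by
        have : I * I = -1 := I_mul_I
        linear_combination -((Real.pi / 2 : ℝ) : ℂ) * this
      rw [e, Complex.arg_real_mul _ (by positivity)]
      have h1 : |Complex.arg (1 - I)| ≤ Real.pi / 2 := by
        rw [Complex.abs_arg_le_pi_div_two_iff]; simp
      have h2 : Complex.arg (1 - I) < 0 := by
        rw [Complex.arg_neg_iff]; simp
      rw [abs_le] at h1
      have h3 : (((Real.pi / 2 : ℝ) : ℂ) * (1 + I)).im = Real.pi / 2 := by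
        rw [Complex.im_ofReal_mul]; simp
      rw [h3]
      constructor
      · linarith [h1.1]
      · linarith
    · simp only [HP, mem_ofPred_eq]
      rw [Complex.im_ofReal_mul]; simp; positivity
  · intro ζ hζ; exact hζ.1.ne'
  · intro ζ hζ; exact hζ.2.ne

lemma surj_upper : {ζ : ℂ | 2 * Real.pi < ζ.im} ⊆ L '' HP := by
  apply surj_region
  · apply Convex.isPreconnected
    exact convex_halfSpace_im_gt (2 * Real.pi)
  · have hpi := Real.pi_pos
    refine ⟨L ((4 * Real.pi : ℝ) * I), ?_, ⟨_, ?_, rfl⟩⟩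
    · simp only [mem_ofPred_eq]
      have h3 : (((4 * Real.pi : ℝ) : ℂ) * I) ∈ CH := by
        constructor
        · rw [Complex.im_ofReal_mul]; simp; positivity
        · simp [Real.pi_ne_zero]
      have h4 := L_im_ge h3
      have h5 : (((4 * Real.pi : ℝ) : ℂ) * I).im = 4 * Real.pi := by
        rw [Complex.im_ofReal_mul]; simp
      rw [h5] at h4
      linarith
    · simp only [HP, mem_ofPred_eq]
      rw [Complex.im_ofReal_mul]; simp; positivity
  · intro ζ hζ; simp only [mem_ofPred_eq] at hζ; linarith [Real.pi_pos]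
  · intro ζ hζ; exact (ne_of_gt hζ)

/-- inverse of L -/
noncomputable def Li (ζ : ℂ) : ℂ := Function.invFunOn L HP ζ

lemma Li_mem {ζ : ℂ} (h : ζ ∈ L '' HP) : Li ζ ∈ HP := Function.invFunOn_mem h
lemma L_Li {ζ : ℂ} (h : ζ ∈ L '' HP) : L (Li ζ) = ζ := Function.invFunOn_eq h
lemma Li_L {z : ℂ} (h : z ∈ HP) : Li (L z) = z := L_inj.leftInvOn_invFunOn h

lemma continuousAt_Li {ζ : ℂ} (h : ζ ∈ L '' HP) : ContinuousAt Li ζ := by
  rw [ContinuousAt, tendsto_def]
  intro s hs
  obtain ⟨U, hUs, hU, hmem⟩ := _root_.mem_nhds_iff.mp hs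
  have hV : IsOpen (L '' (U ∩ HP)) := L_open (hU.inter isOpen_HP) inter_subset_right
  have hζ : ζ ∈ L '' (U ∩ HP) := ⟨Li ζ, ⟨hmem, Li_mem h⟩, L_Li h⟩
  filter_upwards [hV.mem_nhds hζ] with w hw
  obtain ⟨z, hz, rfl⟩ := hw
  show Li (L z) ∈ s
  rw [Li_L hz.2]
  exact hUs hz.1

/-- the lifted logarithm -/
noncomputable def lg (k : ℕ) (w : ℂ) : ℂ := Complex.log (-w) + Real.pi * I + 2 * Real.pi * k * I

lemma notMem_X_iff {w : ℂ} : w ∉ X ↔ -w ∈ slitPlane := by
  rw [mem_slitPlane_iff]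
  simp only [X, mem_ofPred_eq, not_and_or, neg_re, neg_im, neg_ne_zero]
  constructor
  · rintro (h | h)
    · left; linarith
    · right; exact h
  · rintro (h | h)
    · left; linarith
    · right; exact h

lemma lg_im (k : ℕ) (w : ℂ) : (lg k w).im = Complex.arg (-w) + Real.pi + 2 * Real.pi * k := by
  unfold lg
  simp [Complex.log_im]

lemma lg_re (k : ℕ) (w : ℂ) : (lg k w).re = Real.log ‖w‖ := by
  unfold lg
  simp [Complex.log_re]

lemma lg_im_mem (k : ℕ) {w : ℂ} (hw : w ∉ X) : 2 * Real.pi * k < (lg k w).im ∧ (lg k w).im < 2 * Real.pi * k + 2 * Real.pi := by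
  rw [lg_im]
  rw [notMem_X_iff] at hw
  have h1 := Complex.neg_pi_lt_arg (-w)
  have h2 : Complex.arg (-w) < Real.pi := lt_of_le_of_ne (Complex.arg_le_pi _) (Complex.slitPlane_arg_ne_pi hw)
  constructor <;> linarith

lemma lg_mem_image (k : ℕ) {w : ℂ} (hw : w ∉ X) : lg k w ∈ L '' HP := by
  have h := lg_im_mem k hw
  rcases Nat.eq_zero_or_pos k with hk | hk
  · subst hk
    apply surj_strip
    simp only [CharP.cast_eq_zero, mul_zero, zero_add] at h
    exact h
  · apply surj_upper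
    simp only [mem_ofPred_eq]
    have : (1:ℝ) ≤ k := by exact_mod_cast hk
    have hpi := Real.pi_pos
    nlinarith [h.1]

lemma exp_lg (k : ℕ) {w : ℂ} (hw : w ≠ 0) : Complex.exp (lg k w) = w := by
  unfold lg
  rw [Complex.exp_add, Complex.exp_add, Complex.exp_log (neg_ne_zero.mpr hw), Complex.exp_pi_mul_I]
  have : Complex.exp (2 * Real.pi * k * I) = 1 := by
    rw [Complex.exp_eq_one_iff]; exact ⟨k, by push_cast; ring⟩
  rw [this]; ring

/-- inverse branches of f -/
noncomputable def psi (k : ℕ) (w : ℂ) : ℂ := Li (lg k w)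

lemma ne_zero_of_notMem_X {w : ℂ} (hw : w ∉ X) : w ≠ 0 := by
  rintro rfl
  apply hw
  simp [X]

lemma psi_mem (k : ℕ) {w : ℂ} (hw : w ∉ X) : psi k w ∈ HP := Li_mem (lg_mem_image k hw)

lemma L_psi (k : ℕ) {w : ℂ} (hw : w ∉ X) : L (psi k w) = lg k w := L_Li (lg_mem_image k hw)

lemma f_psi (k : ℕ) {w : ℂ} (hw : w ∉ X) : f (psi k w) = w := by
  rw [← exp_L (HP_sub_CH (psi_mem k hw)).2, L_psi k hw, exp_lg k (ne_zero_of_notMem_X hw)]

lemma continuousAt_lg (k : ℕ) {w : ℂ} (hw : w ∉ X) : ContinuousAt (lg k) w := by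
  unfold lg
  rw [notMem_X_iff] at hw
  have : ContinuousAt (fun w : ℂ => Complex.log (-w)) w := 
    (continuousAt_clog hw).comp continuousAt_neg
  fun_prop

lemma continuousAt_psi (k : ℕ) {w : ℂ} (hw : w ∉ X) : ContinuousAt (psi k) w := by
  unfold psi
  exact ContinuousAt.comp (g := Li) (continuousAt_Li (lg_mem_image k hw)) (continuousAt_lg k hw)

/-- every point of HP with f z ∉ X is in a cell -/
lemma exists_cell {z : ℂ} (hz : z ∈ HP) (hf : f z ∉ X) : ∃ k : ℕ, psi k (f z) = z := by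
  -- L z = lg k (f z)
  have hne := ne_zero_of_notMem_X hf
  have h1 : Complex.exp (L z) = Complex.exp (lg 0 (f z)) := by
    rw [exp_L (HP_sub_CH hz).2, exp_lg 0 hne]
  rw [Complex.exp_eq_exp_iff_exists_int] at h1
  obtain ⟨n, hn⟩ := h1
  have h2 := L_im_pos hz
  have h3 := lg_im_mem 0 hf
  have h4 : (L z).im = (lg 0 (f z)).im + 2 * Real.pi * n := by
    rw [hn]; simp; ring
  have hn0 : 0 ≤ n := by
    by_contra hlt
    push Not at hlt
    have : (n:ℝ) ≤ -1 := by exact_mod_cast (by omega : n ≤ -1)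
    have hpi := Real.pi_pos
    simp only [CharP.cast_eq_zero, mul_zero, zero_add] at h3
    nlinarith [h3.2]
  obtain ⟨k, rfl⟩ := Int.eq_ofNat_of_zero_le hn0
  refine ⟨k, ?_⟩
  have h5 : lg k (f z) = L z := by
    rw [hn]; unfold lg; push_cast; ring
  unfold psi
  rw [h5, Li_L hz]

/-- trigonometric bound -/
lemma mul_cos_le_sin {φ : ℝ} (h0 : 0 ≤ φ) (h1 : φ ≤ Real.pi) : φ * Real.cos φ ≤ Real.sin φ := by
  rcases lt_or_ge φ (Real.pi / 2) with h | h
  · have hc : 0 < Real.cos φ := Real.cos_pos_of_mem_Ioo ⟨by linarith [Real.pi_pos], h⟩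
    have h2 := Real.le_tan h0 h
    rw [Real.tan_eq_sin_div_cos, le_div_iff₀ hc] at h2
    exact h2
  · have hc : Real.cos φ ≤ 0 := Real.cos_nonpos_of_pi_div_two_le_of_le h (by linarith)
    have hs : 0 ≤ Real.sin φ := Real.sin_nonneg_of_nonneg_of_le_pi h0 h1
    nlinarith

/-- polar form -/
lemma polar {z : ℂ} (hz : z ∈ HP) : 
    z.im = ‖z‖ * Real.cos (Complex.arg (-I * z)) ∧ z.re = -(‖z‖ * Real.sin (Complex.arg (-I * z))) := by
  have h1 := Complex.norm_mul_cos_add_sin_mul_I (-I * z)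
  rw [norm_negI] at h1
  have hre := congrArg Complex.re h1
  have him := congrArg Complex.im h1
  rw [re_negI] at hre
  rw [im_negI] at him
  simp only [mul_re, mul_im, add_re, add_im, ofReal_re, ofReal_im, I_re, I_im, mul_zero, mul_one, zero_mul, sub_zero, add_zero, zero_add, sub_self, Complex.cos_ofReal_re, Complex.sin_ofReal_re, Complex.cos_ofReal_im, Complex.sin_ofReal_im] at hre him
  constructor
  · linarith
  · linarith

/-- points of HP with real part ≤ -2 lie above the level 2π -/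
lemma L_im_of_re_le {z : ℂ} (hz : z ∈ HP) (hre : z.re ≤ -2) : 2 * Real.pi ≤ (L z).im := by
  obtain ⟨h1, h2⟩ := polar hz
  have ha := arg_bd' hz
  rw [abs_lt] at ha
  rw [L_im]
  set α := Complex.arg (-I * z) with hα
  set φ := Real.pi / 2 - α with hφ
  have hn : 0 < ‖z‖ := norm_pos_iff.mpr (HP_sub_CH hz).2
  have hs : Real.sin φ = Real.cos α := by rw [hφ, Real.sin_pi_div_two_sub]
  have hc : Real.cos φ = Real.sin α := by rw [hφ, Real.cos_pi_div_two_sub]
  have h3 := mul_cos_le_sin (φ := φ) (by rw [hφ]; linarith) (by rw [hφ]; linarith [Real.pi_pos])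
  have h4 : 2 ≤ ‖z‖ * Real.cos φ := by rw [hc]; linarith
  -- 2 φ ≤ z.im
  have h5 : 2 * φ ≤ z.im := by
    rw [h1, ← hs]
    have hφ0 : 0 ≤ φ := by rw [hφ]; linarith
    nlinarith
  have : 2 * α = Real.pi - 2 * φ := by rw [hφ]; ring
  linarith

/-- curve -/
noncomputable def cv (φ : ℝ) : ℂ := ⟨-2 * Real.cos φ / Real.sinc φ, 2 * φ⟩

lemma sinc_pos {φ : ℝ} (h0 : 0 ≤ φ) (h1 : φ < Real.pi) : 0 < Real.sinc φ := by
  rcases eq_or_lt_of_le h0 with h | h
  · rw [← h]; simp
  · rw [Real.sinc_of_ne_zero h.ne']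
    have := Real.sin_pos_of_pos_of_lt_pi h h1
    positivity

lemma cv_zero : cv 0 = -2 := by
  apply Complex.ext <;> simp [cv]

lemma cv_continuousOn : ContinuousOn cv (Ico 0 Real.pi) := by
  have h1 : ContinuousOn (fun φ : ℝ => -2 * Real.cos φ / Real.sinc φ) (Ico 0 Real.pi) := by
    apply ContinuousOn.div
    · fun_prop
    · exact Real.continuous_sinc.continuousOn
    · intro φ hφ; exact (sinc_pos hφ.1 hφ.2).ne'
  have h2 : cv = fun φ : ℝ => ((-2 * Real.cos φ / Real.sinc φ : ℝ) : ℂ) + ((2 * φ : ℝ) : ℂ) * I := by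
    ext φ
    apply Complex.ext
    · simp only [cv, add_re, ofReal_re, mul_re, I_re, mul_zero, ofReal_im, I_im, mul_one, sub_self, add_zero]
    · simp only [cv, add_im, ofReal_re, mul_im, I_re, mul_zero, ofReal_im, I_im, mul_one, add_zero, zero_add]
  rw [h2]
  apply ContinuousOn.add
  · exact Complex.continuous_ofReal.comp_continuousOn h1
  · fun_prop

lemma cv_eq {φ : ℝ} (h0 : 0 < φ) (h1 : φ < Real.pi) : 
    -I * cv φ = ((2 * φ / Real.sin φ : ℝ) : ℂ) * (Real.cos (Real.pi / 2 - φ) + Real.sin (Real.pi / 2 - φ) * I) := by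
  have hs := Real.sin_pos_of_pos_of_lt_pi h0 h1
  rw [Real.cos_pi_div_two_sub, Real.sin_pi_div_two_sub]
  apply Complex.ext
  · rw [re_negI, Complex.re_ofReal_mul]
    simp only [cv, add_re, ofReal_re, mul_re, I_re, mul_zero, ofReal_im, I_im, mul_one, sub_self, add_zero]
    field_simp
  · rw [im_negI, Complex.im_ofReal_mul]
    simp only [cv, add_im, ofReal_im, mul_im, ofReal_re, I_im, mul_one, I_re, mul_zero, add_zero, zero_add]
    rw [Real.sinc_of_ne_zero h0.ne']
    field_simp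

lemma cv_mem_HP {φ : ℝ} (h0 : 0 < φ) : cv φ ∈ HP := by
  simp [HP, cv, h0]

lemma L_cv {φ : ℝ} (h0 : 0 < φ) (h1 : φ < Real.pi) : (L (cv φ)).im = 2 * Real.pi ∧ 
    Real.log 4 ≤ (L (cv φ)).re := by
  have hs := Real.sin_pos_of_pos_of_lt_pi h0 h1
  have he := cv_eq h0 h1
  have harg : Complex.arg (-I * cv φ) = Real.pi / 2 - φ := by
    have h3 := Complex.arg_mul_cos_add_sin_mul_I (r := 2 * φ / Real.sin φ) (θ := Real.pi / 2 - φ) 
      (by positivity) ⟨by linarith [Real.pi_pos], by linarith [Real.pi_pos]⟩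
    rw [he]
    simp only [Complex.ofReal_cos, Complex.ofReal_sin]
    exact h3
  have hnorm : ‖cv φ‖ = 2 * φ / Real.sin φ := by
    rw [← norm_negI, he, norm_mul, Complex.norm_real, Real.norm_of_nonneg (by positivity)]
    have : ‖((Real.cos (Real.pi / 2 - φ) : ℂ) + Real.sin (Real.pi / 2 - φ) * I)‖ = 1 := by
      have := Complex.norm_exp_ofReal_mul_I (Real.pi / 2 - φ)
      rw [Complex.exp_mul_I] at this
      push_cast at this ⊢
      exact this
    rw [this, mul_one]
  constructor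
  · rw [L_im, harg]
    simp only [cv]; ring
  · rw [L_re, hnorm]
    have h2 : (cv φ).re = - 2 * (φ * Real.cos φ / Real.sin φ) := by
      simp only [cv]
      rw [Real.sinc_of_ne_zero h0.ne']
      field_simp
    have h3 : φ * Real.cos φ / Real.sin φ ≤ 1 := by
      rw [div_le_one hs]; exact mul_cos_le_sin h0.le h1.le
    have h4 : Real.log 2 ≤ Real.log (2 * φ / Real.sin φ) := by
      apply Real.log_le_log (by norm_num)
      rw [le_div_iff₀ hs]
      have := Real.sin_le h0.le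
      linarith
    have h5 : Real.log 4 = 2 * Real.log 2 := by
      rw [show (4:ℝ) = 2 ^ 2 by norm_num, Real.log_pow]; push_cast; ring
    rw [h2, h5]
    linarith

/-- the curve exhausts the level set in HP -/
lemma exists_cv {z : ℂ} (hz : z ∈ HP) (hL : (L z).im = 2 * Real.pi) : ∃ φ ∈ Ioo 0 Real.pi, cv φ = z := by
  obtain ⟨h1, h2⟩ := polar hz
  have ha := arg_bd' hz
  rw [abs_lt] at ha
  rw [L_im] at hL
  set α := Complex.arg (-I * z) with hα
  set φ := Real.pi / 2 - α with hφ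
  have hs : Real.sin φ = Real.cos α := by rw [hφ, Real.sin_pi_div_two_sub]
  have hc : Real.cos φ = Real.sin α := by rw [hφ, Real.cos_pi_div_two_sub]
  have hφ0 : 0 < φ := by rw [hφ]; linarith
  have hφ1 : φ < Real.pi := by rw [hφ]; linarith
  have hsp := Real.sin_pos_of_pos_of_lt_pi hφ0 hφ1
  have him : z.im = 2 * φ := by rw [hφ]; linarith
  refine ⟨φ, ⟨hφ0, hφ1⟩, ?_⟩
  apply Complex.ext
  · simp only [cv]
    rw [Real.sinc_of_ne_zero hφ0.ne', h2, ← hc]
    have h3 : ‖z‖ = 2 * φ / Real.sin φ := by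
      rw [hs, eq_div_iff (by rw [← hs]; exact hsp.ne')]
      linarith
    rw [h3]
    field_simp
  · simp only [cv]; exact him.symm
end Pool.Agent.Lib.MP_74947d_an
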