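import Mathlib
import Pool.Agent.Lib.MP_74947d_an.LogMap

set_option linter.style.longLine false
set_option linter.unusedVariables false

open Complex Set Filter Metric Topology

namespace Pool.Agent.Lib.MP_74947d_an

/-- `χ` is locally constant at `w` within the escaping set -/
def LC (χ : ℂ → Bool) (w : ℂ) : Prop := ∀ᶠ w' in 𝓝 w, w' ∈ Esc → χ w' = χ w

/-- side colour along the `k`-th level -/
def SC (χ : ℂ → Bool) (k : ℕ) (g : Bool) : Prop := 
  ∀ z ∈ CH, (L z).im = 2 * Real.pi * k → x1 < ‖f z‖ → ∀ᶠ w in 𝓝 z, w ∈ Esc → 0 < w.im → χ w = g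

structure Good (χ : ℂ → Bool) (cp cm : Bool) : Prop where
  lc : ∀ w ∈ Esc, w ∉ X → LC χ w
  side : ∀ x : ℝ, x1 < x → ∀ᶠ w in 𝓝 (x : ℂ), w ∈ Esc → (0 < w.im → χ w = cp) ∧ (w.im < 0 → χ w = cm)

lemma norm_f_eq {z : ℂ} (hz : z ≠ 0) : ‖f z‖ = Real.exp (L z).re := by
  rw [← exp_L hz, Complex.norm_exp]

lemma f_eq_of_level {z : ℂ} (hz : z ≠ 0) {k : ℤ} (h : (L z).im = 2 * Real.pi * k) : f z = (‖f z‖ : ℂ) := by
  rw [norm_f_eq hz, ← exp_L hz, Complex.ofReal_exp, Complex.exp_eq_exp_iff_exists_int]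
  refine ⟨k, ?_⟩
  apply Complex.ext
  · simp
  · simp [h]; ring

lemma f_mem_X'_of_level {z : ℂ} (hz : z ≠ 0) {k : ℤ} (h : (L z).im = 2 * Real.pi * k) (h1 : x1 < ‖f z‖) : 
    f z ∈ X' := by
  rw [mem_X'_iff]
  exact ⟨‖f z‖, h1, f_eq_of_level hz h⟩

lemma mem_Esc_of_level {z : ℂ} (hz : z ≠ 0) {k : ℤ} (h : (L z).im = 2 * Real.pi * k) (h1 : x1 < ‖f z‖) : 
    z ∈ Esc := f_mem_Esc_iff.mp (X'_sub_Esc (f_mem_X'_of_level hz h h1))

/-- uniform version of side colour near a level point, by compactness -/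
lemma SC_uniform {χ : ℂ → Bool} {k : ℕ} {g : Bool} (h : SC χ k g) {x : ℝ} (hx : x1 < x) :
    ∃ ε > 0, ∀ w ∈ CH, ‖L w - ((Real.log x : ℂ) + 2 * Real.pi * k * I)‖ < ε → w ∈ Esc → 0 < w.im → χ w = g := by
  have hx0 : 0 < x := x1_pos.trans hx
  set ζ : ℂ := (Real.log x : ℂ) + 2 * Real.pi * k * I with hζ
  set K := {z | z ∈ CH ∧ ‖L z‖ ≤ ‖ζ‖ + 1} with hK
  have hKc : IsCompact K := isCompact_sub _ (by positivity)
  have key : ∃ ε > 0, ∀ w ∈ K, ‖L w - ζ‖ < ε → w ∈ Esc → 0 < w.im → χ w = g := by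
    apply hKc.induction_on (p := fun s => ∃ ε > 0, ∀ w ∈ s, ‖L w - ζ‖ < ε → w ∈ Esc → 0 < w.im → χ w = g)
    · exact ⟨1, one_pos, by simp⟩
    · rintro s t hst ⟨ε, hε, h1⟩
      exact ⟨ε, hε, fun w hw => h1 w (hst hw)⟩
    · rintro s t ⟨ε, hε, h1⟩ ⟨ε', hε', h2⟩
      refine ⟨min ε ε', lt_min hε hε', ?_⟩
      rintro w (hw | hw) h3
      · exact h1 w hw (lt_of_lt_of_le h3 (min_le_left _ _))
      · exact h2 w hw (lt_of_lt_of_le h3 (min_le_right _ _))
    · intro z hz
      by_cases hL : L z = ζ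
      · have him : (L z).im = 2 * Real.pi * k := by rw [hL, hζ]; simp
        have hnorm : ‖f z‖ = x := by
          rw [norm_f_eq hz.1.2, hL, hζ]
          simp [Real.exp_log hx0]
        have h1 := h z hz.1 him (by rw [hnorm]; exact hx)
        refine ⟨_, mem_nhdsWithin_of_mem_nhds h1, 1, one_pos, ?_⟩
        intro w hw _
        exact hw
      · have hd : 0 < ‖L z - ζ‖ / 2 := by
          have := norm_pos_iff.mpr (sub_ne_zero.mpr hL)
          linarith
        have hc := continuousAt_L hz.1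
        have h2 : ∀ᶠ w in 𝓝 z, ‖L w - L z‖ < ‖L z - ζ‖ / 2 := by
          have := (Metric.continuousAt_iff'.mp hc) _ hd
          simpa only [dist_eq_norm] using this
        refine ⟨_, mem_nhdsWithin_of_mem_nhds h2, ‖L z - ζ‖ / 2, hd, ?_⟩
        intro w hw h3
        exfalso
        have hw' : ‖L w - L z‖ < ‖L z - ζ‖ / 2 := hw
        have : ‖L z - ζ‖ ≤ ‖L w - L z‖ + ‖L w - ζ‖ := by
          calc ‖L z - ζ‖ = ‖(L w - ζ) - (L w - L z)‖ := by ring_nf
            _ ≤ ‖L w - ζ‖ + ‖L w - L z‖ := norm_sub_le _ _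
            _ = _ := by ring
        linarith
  obtain ⟨ε, hε, h1⟩ := key
  refine ⟨min ε 1, lt_min hε one_pos, ?_⟩
  intro w hw h2
  apply h1 w ⟨hw, ?_⟩ (lt_of_lt_of_le h2 (min_le_left _ _))
  have h3 : ‖L w - ζ‖ < 1 := lt_of_lt_of_le h2 (min_le_right _ _)
  calc ‖L w‖ = ‖(L w - ζ) + ζ‖ := by ring_nf
    _ ≤ ‖L w - ζ‖ + ‖ζ‖ := norm_add_le _ _
    _ ≤ _ := by linarith

lemma lg_pos {w : ℂ} (hw : 0 < w.im) (k : ℕ) : lg k w = Complex.log w + 2 * Real.pi * k * I := by
  unfold lg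
  have : Complex.log (-w) + Real.pi * I = Complex.log w := by
    apply Complex.ext
    · simp [Complex.log_re]
    · simp [Complex.log_im, Complex.arg_neg_eq_arg_sub_pi_of_im_pos hw]
  rw [this]

lemma lg_neg {w : ℂ} (hw : w.im < 0) (k : ℕ) : lg k w = Complex.log w + 2 * Real.pi * (k + 1 : ℕ) * I := by
  unfold lg
  have : Complex.log (-w) + Real.pi * I = Complex.log w + 2 * Real.pi * I := by
    apply Complex.ext
    · simp [Complex.log_re]
    · simp [Complex.log_im, Complex.arg_neg_eq_arg_add_pi_of_im_neg hw]; ring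
  rw [this]; push_cast; ring

lemma log_near {x : ℝ} (hx : 0 < x) {ε : ℝ} (hε : 0 < ε) : 
    ∀ᶠ w in 𝓝 (x : ℂ), ‖Complex.log w - Real.log x‖ < ε := by
  have hc : ContinuousAt Complex.log (x : ℂ) := continuousAt_clog (by simp [hx])
  have := (Metric.continuousAt_iff'.mp hc) ε hε
  rw [Complex.ofReal_log hx.le]
  simpa only [dist_eq_norm] using this

lemma SC_above {χ : ℂ → Bool} {k : ℕ} {g : Bool} (h : SC χ k g) {x : ℝ} (hx : x1 < x) :
    ∀ᶠ w in 𝓝 (x : ℂ), w ∈ Esc → 0 < w.im → χ (psi k w) = g := by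
  obtain ⟨ε, hε, h1⟩ := SC_uniform h hx
  filter_upwards [log_near (x1_pos.trans hx) hε] with w hw hE him
  have hwX : w ∉ X := fun h => by linarith [h.2]
  apply h1 _ (HP_sub_CH (psi_mem k hwX))
  · rw [L_psi k hwX, lg_pos him, add_sub_add_right_eq_sub]
    exact hw
  · rw [← f_mem_Esc_iff, f_psi k hwX]; exact hE
  · exact psi_mem k hwX

lemma SC_below {χ : ℂ → Bool} {k : ℕ} {g : Bool} (h : SC χ (k+1) g) {x : ℝ} (hx : x1 < x) :
    ∀ᶠ w in 𝓝 (x : ℂ), w ∈ Esc → w.im < 0 → χ (psi k w) = g := by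
  obtain ⟨ε, hε, h1⟩ := SC_uniform h hx
  filter_upwards [log_near (x1_pos.trans hx) hε] with w hw hE him
  have hwX : w ∉ X := fun h => by linarith [h.2]
  apply h1 _ (HP_sub_CH (psi_mem k hwX))
  · rw [L_psi k hwX, lg_neg him, add_sub_add_right_eq_sub]
    exact hw
  · rw [← f_mem_Esc_iff, f_psi k hwX]; exact hE
  · exact psi_mem k hwX

lemma psi_mem_Esc {k : ℕ} {w : ℂ} (hX : w ∉ X) (hE : w ∈ Esc) : psi k w ∈ Esc := by
  rw [← f_mem_Esc_iff, f_psi k hX]; exact hE

lemma HP_not_X {z : ℂ} (hz : z ∈ HP) : z ∉ X := fun h => by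
  have : 0 < z.im := hz
  linarith [h.2]

lemma LC_psi {χ : ℂ → Bool} (h : ∀ w ∈ Esc, w ∈ HP → LC χ w) {k : ℕ} {w : ℂ} (hE : w ∈ Esc) (hX : w ∉ X) : 
    LC (fun w => χ (psi k w)) w := by
  have h1 := h (psi k w) (psi_mem_Esc hX hE) (psi_mem k hX)
  have h2 := (continuousAt_psi k hX).eventually h1
  have h3 : ∀ᶠ w' in 𝓝 w, w' ∉ X := isClosed_X.isOpen_compl.mem_nhds hX
  unfold LC
  filter_upwards [h2, h3] with w' h4 h5 h6
  exact h4 (psi_mem_Esc h5 h6)

lemma good_psi {χ : ℂ → Bool} (h : ∀ w ∈ Esc, w ∈ HP → LC χ w) {k : ℕ} {g1 g2 : Bool} (h1 : SC χ k g1) 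
    (h2 : SC χ (k+1) g2) : Good (fun w => χ (psi k w)) g1 g2 := by
  constructor
  · intro w hw hX
    exact LC_psi h hw hX
  · intro x hx
    filter_upwards [SC_above h1 hx, SC_below h2 hx] with w h3 h4 h5
    exact ⟨h3 h5, h4 h5⟩

/-- conjugation symmetry -/
lemma tendsto_conj (w : ℂ) : Tendsto (starRingEnd ℂ) (𝓝 w) (𝓝 ((starRingEnd ℂ) w)) := 
  Complex.continuous_conj.tendsto w

lemma LC_conj {χ : ℂ → Bool} {w : ℂ} (h : LC χ ((starRingEnd ℂ) w)) : LC (fun w => χ ((starRingEnd ℂ) w)) w := by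
  unfold LC at h ⊢
  filter_upwards [(tendsto_conj w).eventually h] with w' h1 h2
  exact h1 (conj_mem_Esc.mpr h2)

lemma good_conj {χ : ℂ → Bool} {cp cm : Bool} (h : Good χ cp cm) : Good (fun w => χ ((starRingEnd ℂ) w)) cm cp := by
  constructor
  · intro w hw hX
    exact LC_conj (h.lc _ (conj_mem_Esc.mpr hw) (by rwa [conj_mem_X]))
  · intro x hx
    have h1 := (tendsto_conj (x:ℂ)).eventually (by rw [Complex.conj_ofReal]; exact h.side x hx)
    filter_upwards [h1] with w h2 h3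
    have h4 := h2 (conj_mem_Esc.mpr h3)
    constructor
    · intro h5
      exact h4.2 (by simpa using h5)
    · intro h5
      exact h4.1 (by simpa using h5)

/-- local constancy on a preconnected set -/
lemma const_of_preconnected {χ : ℂ → Bool} {S : Set ℂ} (hS : IsPreconnected S) (hE : S ⊆ Esc) 
    (h : ∀ w ∈ S, LC χ w) {x y : ℂ} (hx : x ∈ S) (hy : y ∈ S) : χ x = χ y := by
  apply hS.constant (f := χ) _ hx hy
  intro w hw
  have : ∀ᶠ w' in 𝓝[S] w, χ w' = χ w := by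
    have h1 : ∀ᶠ w' in 𝓝[S] w, w' ∈ Esc → χ w' = χ w := (h w hw).filter_mono nhdsWithin_le_nhds
    filter_upwards [h1, self_mem_nhdsWithin] with w' h2 h3
    exact h2 (hE h3)
  exact (tendsto_const_nhds.congr' (this.mono fun _ h => h.symm) : Tendsto χ (𝓝[S] w) (𝓝 (χ w)))

lemma fr_mono_left {x y : ℝ} (hxy : x ≤ y) (hy : y ≤ -2) : fr x ≤ fr y := by
  have hm : MonotoneOn fr (Iic (-2)) := by
    apply monotoneOn_of_deriv_nonneg (convex_Iic _)
    · unfold fr; fun_prop
    · unfold fr; fun_prop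
    · intro z hz
      rw [interior_Iic] at hz
      have hd : HasDerivAt fr ((2 * z) * Real.exp (z + 2) + z ^ 2 * Real.exp (z + 2)) z := by
        unfold fr
        have h1 : HasDerivAt (fun x : ℝ => x ^ 2) (2 * z) z := by simpa using hasDerivAt_pow 2 z
        have h2 : HasDerivAt (fun x : ℝ => Real.exp (x + 2)) (Real.exp (z + 2)) z := by
          simpa using ((hasDerivAt_id z).add_const 2).exp
        exact h1.mul h2
      rw [hd.deriv]
      have hz' : z < -2 := hz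
      have : 2 * z * Real.exp (z + 2) + z ^ 2 * Real.exp (z + 2) = (z * (z + 2)) * Real.exp (z + 2) := by ring
      rw [this]
      apply mul_nonneg _ (Real.exp_pos _).le
      nlinarith
  exact hm (by simp only [mem_Iic]; linarith) hy hxy

lemma fr_mono_right {x y : ℝ} (hx : -2 ≤ x) (hxy : x ≤ y) (hy : y ≤ 0) : fr y ≤ fr x := by
  have hm : AntitoneOn fr (Icc (-2) 0) := by
    apply antitoneOn_of_deriv_nonpos (convex_Icc _ _)
    · unfold fr; fun_prop
    · unfold fr; fun_prop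
    · intro z hz
      rw [interior_Icc] at hz
      have hd : HasDerivAt fr ((2 * z) * Real.exp (z + 2) + z ^ 2 * Real.exp (z + 2)) z := by
        unfold fr
        have h1 : HasDerivAt (fun x : ℝ => x ^ 2) (2 * z) z := by simpa using hasDerivAt_pow 2 z
        have h2 : HasDerivAt (fun x : ℝ => Real.exp (x + 2)) (Real.exp (z + 2)) z := by
          simpa using ((hasDerivAt_id z).add_const 2).exp
        exact h1.mul h2
      rw [hd.deriv]
      have : 2 * z * Real.exp (z + 2) + z ^ 2 * Real.exp (z + 2) = (z * (z + 2)) * Real.exp (z + 2) := by ring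
      rw [this]
      apply mul_nonpos_of_nonpos_of_nonneg _ (Real.exp_pos _).le
      nlinarith [hz.1, hz.2]
  exact hm ⟨hx, hxy.trans hy⟩ ⟨hx.trans hxy, hy⟩ hxy

lemma neg_mem {y : ℝ} (hy : y < 0) (h : x1 < fr y) : (y : ℂ) ∈ Esc ∧ (y : ℂ) ∉ X := by
  constructor
  · rw [← f_mem_Esc_iff, f_ofReal']
    apply X'_sub_Esc
    rw [mem_X'_iff]
    exact ⟨_, h, rfl⟩
  · intro h2
    have := h2.1
    simp at this
    linarith

/-- all points on level one have the colour of `-2` -/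
lemma level_one {χ : ℂ → Bool} (h : ∀ w ∈ Esc, w ∉ X → LC χ w) {z : ℂ} (hz : z ∈ CH) 
    (hL : (L z).im = 2 * Real.pi) (h1 : x1 < ‖f z‖) : χ z = χ (-2) := by
  rcases lt_or_eq_of_le hz.1 with him | him
  · -- curve
    obtain ⟨φ, hφ, rfl⟩ := exists_cv him hL
    have hsub : ∀ t ∈ Icc 0 φ, cv t ∈ Esc ∧ cv t ∉ X := by
      intro t ht
      rcases eq_or_lt_of_le ht.1 with h0 | h0
      · rw [← h0, cv_zero]
        have : ((-2 : ℝ) : ℂ) = -2 := by push_cast; ring
        rw [← this]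
        apply neg_mem (by norm_num)
        unfold fr
        norm_num
        linarith [x1_lt_one]
      · have ht1 : t < Real.pi := lt_of_le_of_lt ht.2 hφ.2
        obtain ⟨h2, h3⟩ := L_cv h0 ht1
        have hne := (HP_sub_CH (cv_mem_HP h0)).2
        refine ⟨mem_Esc_of_level hne (k := 1) (by rw [h2]; push_cast; ring) ?_, HP_not_X (cv_mem_HP h0)⟩
        rw [norm_f_eq hne]
        have : Real.exp (Real.log 4) ≤ Real.exp (L (cv t)).re := Real.exp_le_exp.mpr h3
        rw [Real.exp_log (by norm_num)] at this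
        linarith [x1_lt_one]
    have hpre : IsPreconnected (cv '' (Icc 0 φ)) := by
      apply isPreconnected_Icc.image
      apply cv_continuousOn.mono
      intro t ht
      exact ⟨ht.1, lt_of_le_of_lt ht.2 hφ.2⟩
    have hE : cv '' (Icc 0 φ) ⊆ Esc := by
      rintro _ ⟨t, ht, rfl⟩
      exact (hsub t ht).1
    have h5 := const_of_preconnected hpre hE (χ := χ) (by
      rintro _ ⟨t, ht, rfl⟩
      exact h _ (hsub t ht).1 (hsub t ht).2) (x := cv φ) (y := cv 0) ⟨φ, right_mem_Icc.mpr hφ.1.le, rfl⟩ 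
      ⟨0, left_mem_Icc.mpr hφ.1.le, rfl⟩
    rw [h5, cv_zero]
  · obtain ⟨x, hx, rfl⟩ := CH_real hz him.symm
    rcases lt_or_gt_of_ne hx with h3 | h3
    · -- negative real
      have hfx : x1 < fr x := by
        rw [f_ofReal', Complex.norm_real, Real.norm_of_nonneg (fr_nonneg x)] at h1
        exact h1
      have h4 : x1 < fr (-2) := by unfold fr; norm_num; linarith [x1_lt_one]
      have hsub : ∀ y ∈ uIcc x (-2), (y : ℂ) ∈ Esc ∧ (y : ℂ) ∉ X := by
        intro y hy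
        have hy0 : y < 0 := by
          rcases le_total x (-2) with h | h
          · rw [uIcc_of_le h] at hy; linarith [hy.2]
          · rw [uIcc_of_ge h] at hy; linarith [hy.2]
        apply neg_mem hy0
        rcases le_total x (-2) with h | h
        · rw [uIcc_of_le h] at hy
          exact lt_of_lt_of_le hfx (fr_mono_left hy.1 hy.2)
        · rw [uIcc_of_ge h] at hy
          exact lt_of_lt_of_le hfx (fr_mono_right hy.1 hy.2 h3.le)
      have hpre : IsPreconnected ((fun y : ℝ => (y : ℂ)) '' (uIcc x (-2))) := 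
        isPreconnected_uIcc.image _ Complex.continuous_ofReal.continuousOn
      have h5 := const_of_preconnected hpre (χ := χ) (by
        rintro _ ⟨t, ht, rfl⟩
        exact (hsub t ht).1) (by
        rintro _ ⟨t, ht, rfl⟩
        exact h _ (hsub t ht).1 (hsub t ht).2) (x := (x:ℂ)) (y := ((-2 : ℝ) : ℂ)) ⟨x, left_mem_uIcc, rfl⟩ 
        ⟨-2, right_mem_uIcc, rfl⟩
      rw [h5]
      push_cast; rfl
    · exfalso
      rw [L_pos h3] at hL
      simp at hL
end Pool.Agent.Lib.MP_74947d_an
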