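import Mathlib
import Pool.Agent.Lib.MP_74947d_an.Colours

set_option linter.style.longLine false
set_option linter.unusedVariables false

open Complex Set Filter Metric Topology

namespace Pool.Agent.Lib.MP_74947d_an

/-- admissible path from the upper side to the lower side of the half line -/
structure PathOK (σ : ℝ → ℂ) (a b R : ℝ) : Prop where
  hab : a < b
  cont : ContinuousOn σ (Icc a b)
  ha : σ a ∈ X'
  hb : σ b ∈ X'
  hX : ∀ t ∈ Ioo a b, σ t ∉ X
  hR : ∀ t ∈ Icc a b, R ≤ ‖σ t‖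
  upa : ∀ᶠ t in 𝓝[>] a, 0 < (σ t).im
  lob : ∀ᶠ t in 𝓝[<] b, (σ t).im < 0

lemma PathOK.rev {σ : ℝ → ℂ} {a b R : ℝ} (h : PathOK σ a b R) : 
    PathOK (fun t => (starRingEnd ℂ) (σ (-t))) (-b) (-a) R := by
  constructor
  · linarith [h.hab]
  · apply Complex.continuous_conj.comp_continuousOn
    apply h.cont.comp continuousOn_neg
    intro t ht
    exact ⟨by linarith [ht.2], by linarith [ht.1]⟩
  · simp only [neg_neg]; exact conj_mem_X'.mpr h.hb
  · simp only [neg_neg]; exact conj_mem_X'.mpr h.ha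
  · intro t ht
    rw [conj_mem_X]
    exact h.hX _ ⟨by linarith [ht.2], by linarith [ht.1]⟩
  · intro t ht
    rw [RCLike.norm_conj]
    exact h.hR _ ⟨by linarith [ht.2], by linarith [ht.1]⟩
  · have h1 : Tendsto (fun t : ℝ => -t) (𝓝[>] (-b)) (𝓝[<] b) := by
      have := tendsto_neg_nhdsGT (a := -b)
      simpa using this
    filter_upwards [h1.eventually h.lob] with t ht
    simpa using ht
  · have h1 : Tendsto (fun t : ℝ => -t) (𝓝[<] (-a)) (𝓝[>] a) := by
      have := tendsto_neg_nhdsLT (a := -a)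
      simpa using this
    filter_upwards [h1.eventually h.upa] with t ht
    simpa using ht

/-- the cell S0 -/
def S0 : Set ℂ := {z | 0 < z.im ∧ (L z).im < 2 * Real.pi}

lemma isOpen_S0 : IsOpen S0 := by
  rw [isOpen_iff_mem_nhds]
  rintro z ⟨h1, h2⟩
  have h3 : ∀ᶠ w in 𝓝 z, 0 < w.im := isOpen_HP.mem_nhds h1
  have h4 : ∀ᶠ w in 𝓝 z, (L w).im < 2 * Real.pi := by
    have hc : ContinuousAt (fun w => (L w).im) z := 
      Complex.continuous_im.continuousAt.comp (continuousAt_L (HP_sub_CH h1))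
    exact hc.eventually_lt continuousAt_const h2
  filter_upwards [h3, h4] with w h5 h6 using ⟨h5, h6⟩

lemma f_eq_polar {z : ℂ} (hz : z ≠ 0) : (f z).re = Real.exp (L z).re * Real.cos (L z).im ∧ 
    (f z).im = Real.exp (L z).re * Real.sin (L z).im := by
  rw [← exp_L hz]
  exact ⟨Complex.exp_re _, Complex.exp_im _⟩

lemma S0_not_X {z : ℂ} (hz : z ∈ S0) : f z ∉ X := by
  rintro ⟨h1, h2⟩
  have hz' : z ∈ HP := hz.1
  have h3 := L_im_pos hz'
  obtain ⟨h4, h5⟩ := f_eq_polar (HP_sub_CH hz').2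
  rw [h4] at h1
  rw [h5] at h2
  have he := Real.exp_pos (L z).re
  have h6 : Real.sin (L z).im = 0 := by
    rcases mul_eq_zero.mp h2 with h | h
    · exact absurd h he.ne'
    · exact h
  rcases lt_trichotomy (L z).im Real.pi with h | h | h
  · exact (Real.sin_pos_of_pos_of_lt_pi h3 h).ne' h6
  · rw [h, Real.cos_pi] at h1
    linarith
  · have h7 : Real.sin ((L z).im - Real.pi) = 0 := by rw [Real.sin_sub_pi, h6]; simp
    have h8 := Real.sin_pos_of_pos_of_lt_pi (x := (L z).im - Real.pi) (by linarith) (by linarith [hz.2])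
    linarith

lemma psi_f_S0 {z : ℂ} (hz : z ∈ S0) : psi 0 (f z) = z := by
  obtain ⟨k, hk⟩ := exists_cell (z := z) hz.1 (S0_not_X hz)
  have h1 := lg_im_mem k (S0_not_X hz)
  rw [← L_psi k (S0_not_X hz), hk] at h1
  have h2 : k = 0 := by
    by_contra hne
    have : (1:ℝ) ≤ k := by exact_mod_cast Nat.one_le_iff_ne_zero.mpr hne
    have h3 := hz.2
    have hpi := Real.pi_pos
    nlinarith [h1.1]
  rw [h2] at hk
  exact hk

/-- growth -/
lemma norm_growth {z : ℂ} (h : -2 ≤ z.re) (h1 : 10 ≤ ‖z‖) : 2 * ‖z‖ ≤ ‖f z‖ := by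
  rw [norm_f]
  have h2 : 1 ≤ Real.exp (z.re + 2) := Real.one_le_exp (by linarith)
  nlinarith [norm_nonneg z]

/-- first exit from S0 -/
lemma exit {σ : ℝ → ℂ} {a b R : ℝ} (h : PathOK σ a b R) (hR : 10 ≤ R) : ∃ t1 ∈ Ioo a b, 
    (∀ t ∈ Ioo a t1, σ t ∈ S0) ∧ σ t1 ∈ HP ∧ (L (σ t1)).im = 2 * Real.pi ∧ -2 ≤ (σ t1).re := by
  set Bad := {t | t ∈ Ioo a b ∧ σ t ∉ S0} with hBad
  have hab := h.hab
  -- near a good
  have hga : ∀ᶠ t in 𝓝[>] a, σ t ∈ S0 := by
    obtain ⟨x, hx, hxa⟩ := mem_X'_iff.mp h.ha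
    have hx0 : 0 < x := x1_pos.trans hx
    have hxCH : (x : ℂ) ∈ CH := ⟨by simp, by exact_mod_cast hx0.ne'⟩
    have hc : ContinuousWithinAt σ (Ioi a) a := by
      have := h.cont a (left_mem_Icc.mpr hab.le)
      have h2 : ContinuousWithinAt σ (Ioc a b) a := this.mono Ioc_subset_Icc_self
      exact h2.mono_of_mem_nhdsWithin (Ioc_mem_nhdsGT hab)
    have h3 : ∀ᶠ w in 𝓝 (σ a), (L w).im < 2 * Real.pi := by
      rw [hxa]
      have hc2 : ContinuousAt (fun w => (L w).im) (x:ℂ) := 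
        Complex.continuous_im.continuousAt.comp (continuousAt_L hxCH)
      apply hc2.eventually_lt continuousAt_const
      rw [L_pos hx0, Complex.ofReal_im]
      linarith [Real.pi_pos]
    filter_upwards [hc.eventually h3, h.upa] with t h4 h5 using ⟨h5, h4⟩
  have hBne : Bad.Nonempty := by
    have h1 : ∀ᶠ t in 𝓝[<] b, t ∈ Ioo a b := Ioo_mem_nhdsLT hab
    obtain ⟨t, ht1, ht2⟩ := (h1.and h.lob).exists
    refine ⟨t, ht1, fun hS => ?_⟩
    linarith [hS.1]
  have hbdd : BddBelow Bad := ⟨a, fun t ht => ht.1.1.le⟩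
  set t1 := sInf Bad with ht1
  have h_lt_b : t1 < b := by
    obtain ⟨t, ht⟩ := hBne
    exact lt_of_le_of_lt (csInf_le hbdd ht) ht.1.2
  have h_gt_a : a < t1 := by
    obtain ⟨u, hu, hu2⟩ := (mem_nhdsGT_iff_exists_Ioo_subset).mp hga
    have : u ≤ t1 := by
      apply le_csInf hBne
      intro t ht
      by_contra hlt
      push Not at hlt
      exact ht.2 (hu2 ⟨ht.1.1, hlt⟩)
    exact lt_of_lt_of_le hu this
  have hgood : ∀ t ∈ Ioo a t1, σ t ∈ S0 := by
    intro t ht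
    by_contra hS
    have : t1 ≤ t := csInf_le hbdd ⟨⟨ht.1, ht.2.trans h_lt_b⟩, hS⟩
    linarith [ht.2]
  have hmem : t1 ∈ Ioo a b := ⟨h_gt_a, h_lt_b⟩
  have hcont1 : ContinuousAt σ t1 := (h.cont t1 (Ioo_subset_Icc_self hmem)).continuousAt (Icc_mem_nhds h_gt_a h_lt_b)
  have hbad : σ t1 ∉ S0 := by
    intro hS
    have h1 : ∀ᶠ t in 𝓝 t1, σ t ∈ S0 := hcont1.eventually (isOpen_S0.mem_nhds hS)
    obtain ⟨δ, hδ, h2⟩ := Metric.eventually_nhds_iff.mp h1
    have : t1 + δ ≤ t1 := by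
      apply le_csInf hBne
      intro t ht
      by_contra hlt
      push Not at hlt
      apply ht.2
      apply h2
      have h3 : t1 ≤ t := csInf_le hbdd ht
      rw [Real.dist_eq, abs_lt]
      constructor <;> linarith
    linarith
  -- limits from the left
  have hleft : ∀ᶠ t in 𝓝[<] t1, σ t ∈ S0 := by
    filter_upwards [Ioo_mem_nhdsLT h_gt_a] with t ht using hgood t ht
  have hcl : Tendsto σ (𝓝[<] t1) (𝓝 (σ t1)) := hcont1.tendsto.mono_left nhdsWithin_le_nhds
  have him : 0 ≤ (σ t1).im := by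
    apply ge_of_tendsto ((Complex.continuous_im.tendsto _).comp hcl)
    filter_upwards [hleft] with t ht using ht.1.le
  have hre : -2 ≤ (σ t1).re := by
    apply ge_of_tendsto ((Complex.continuous_re.tendsto _).comp hcl)
    filter_upwards [hleft] with t ht
    by_contra hlt
    push Not at hlt
    have := L_im_of_re_le (z := σ t) ht.1 hlt.le
    linarith [ht.2]
  have hnorm := h.hR t1 (Ioo_subset_Icc_self hmem)
  have hne : σ t1 ≠ 0 := by
    intro h0; rw [h0, norm_zero] at hnorm; linarith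
  have hCH : σ t1 ∈ CH := ⟨him, hne⟩
  have hLle : (L (σ t1)).im ≤ 2 * Real.pi := by
    have h1 : Tendsto (fun t => (L (σ t)).im) (𝓝[<] t1) (𝓝 (L (σ t1)).im) := 
      (Complex.continuous_im.tendsto _).comp ((continuousAt_L hCH).tendsto.comp hcl)
    apply le_of_tendsto h1
    filter_upwards [hleft] with t ht using ht.2.le
  have hpos : 0 < (σ t1).im := by
    rcases lt_or_eq_of_le him with h1 | h1
    · exact h1
    · exfalso
      obtain ⟨x, hx, hxe⟩ := CH_real hCH h1.symm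
      rcases lt_or_gt_of_ne hx with h3 | h3
      · rw [hxe, Complex.norm_real, Real.norm_of_nonpos h3.le] at hnorm
        rw [hxe, Complex.ofReal_re] at hre
        linarith
      · apply h.hX t1 hmem
        rw [mem_X_iff]
        exact ⟨x, h3.le, hxe⟩
  refine ⟨t1, hmem, hgood, hpos, le_antisymm hLle ?_, hre⟩
  by_contra hlt
  push Not at hlt
  exact hbad ⟨hpos, hlt⟩

/-- image of the first piece is an admissible path -/
lemma path_image {σ : ℝ → ℂ} {a b R : ℝ} (h : PathOK σ a b R) (hR : 10 ≤ R) {t1 : ℝ} (ht1 : t1 ∈ Ioo a b)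
    (hgood : ∀ t ∈ Ioo a t1, σ t ∈ S0) (hHP : σ t1 ∈ HP) (hL : (L (σ t1)).im = 2 * Real.pi) 
    (hre : -2 ≤ (σ t1).re) : PathOK (fun t => f (σ t)) a t1 (2 * R) := by
  have hnorm : ∀ t ∈ Icc a t1, 2 * R ≤ ‖f (σ t)‖ := by
    intro t ht
    have h1 := h.hR t ⟨ht.1, ht.2.trans ht1.2.le⟩
    have h2 : -2 ≤ (σ t).re := by
      rcases eq_or_lt_of_le ht.1 with h3 | h3
      · rw [← h3]; linarith [h.ha.1, x1_pos]
      · rcases eq_or_lt_of_le ht.2 with h4 | h4
        · rw [h4]; exact hre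
        · by_contra hlt
          push Not at hlt
          have hS := hgood t ⟨h3, h4⟩
          have := L_im_of_re_le (z := σ t) hS.1 hlt.le
          linarith [hS.2]
    have := norm_growth h2 (hR.trans h1)
    linarith
  have hcsub : ContinuousOn σ (Icc a t1) := h.cont.mono (Icc_subset_Icc_right ht1.2.le)
  constructor
  · exact ht1.1
  · exact continuous_f.comp_continuousOn hcsub
  · exact f_mem_X' h.ha
  · apply f_mem_X'_of_level (HP_sub_CH hHP).2 (k := 1) (by rw [hL]; push_cast; ring)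
    have := hnorm t1 (right_mem_Icc.mpr ht1.1.le)
    linarith [x1_lt_one]
  · intro t ht
    exact S0_not_X (hgood t ht)
  · exact hnorm
  · -- near a
    obtain ⟨x, hx, hxa⟩ := mem_X'_iff.mp h.ha
    have hx0 : 0 < x := x1_pos.trans hx
    have hxCH : (x : ℂ) ∈ CH := ⟨by simp, by exact_mod_cast hx0.ne'⟩
    have hc : ContinuousWithinAt σ (Ioi a) a := by
      have := hcsub a (left_mem_Icc.mpr ht1.1.le)
      have h2 : ContinuousWithinAt σ (Ioc a t1) a := this.mono Ioc_subset_Icc_self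
      exact h2.mono_of_mem_nhdsWithin (Ioc_mem_nhdsGT ht1.1)
    have h3 : ∀ᶠ w in 𝓝 (σ a), (L w).im < Real.pi := by
      rw [hxa]
      have hc2 : ContinuousAt (fun w => (L w).im) (x:ℂ) := 
        Complex.continuous_im.continuousAt.comp (continuousAt_L hxCH)
      apply hc2.eventually_lt continuousAt_const
      rw [L_pos hx0, Complex.ofReal_im]
      exact Real.pi_pos
    filter_upwards [hc.eventually h3, h.upa] with t h4 h5
    have h6 : σ t ∈ HP := h5
    rw [(f_eq_polar (HP_sub_CH h6).2).2]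
    exact mul_pos (Real.exp_pos _) (Real.sin_pos_of_pos_of_lt_pi (L_im_pos h6) h4)
  · -- near t1
    have hcont1 : ContinuousAt σ t1 := (h.cont t1 (Ioo_subset_Icc_self ht1)).continuousAt (Icc_mem_nhds ht1.1 ht1.2)
    have hcl : Tendsto σ (𝓝[<] t1) (𝓝 (σ t1)) := hcont1.tendsto.mono_left nhdsWithin_le_nhds
    have h3 : ∀ᶠ w in 𝓝 (σ t1), Real.pi < (L w).im := by
      have hc2 : ContinuousAt (fun w => (L w).im) (σ t1) := 
        Complex.continuous_im.continuousAt.comp (continuousAt_L (HP_sub_CH hHP))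
      apply continuousAt_const.eventually_lt hc2
      rw [hL]
      linarith [Real.pi_pos]
    filter_upwards [hcl.eventually h3, Ioo_mem_nhdsLT ht1.1] with t h4 h5
    have hS := hgood t h5
    have h6 : σ t ∈ HP := hS.1
    rw [(f_eq_polar (HP_sub_CH h6).2).2]
    have h7 : 0 < Real.sin ((L (σ t)).im - Real.pi) := 
      Real.sin_pos_of_pos_of_lt_pi (by linarith) (by linarith [hS.2])
    rw [Real.sin_sub_pi] at h7
    have := Real.exp_pos (L (σ t)).re
    nlinarith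

/-- good function: SC on level zero -/
lemma Good.sc0 {χ : ℂ → Bool} {cp cm : Bool} (h : Good χ cp cm) : SC χ 0 cp := by
  intro z hz hL hf
  simp only [CharP.cast_eq_zero, mul_zero] at hL
  obtain ⟨x, hx, rfl⟩ := L_im_eq_zero hz hL
  rw [f_ofReal', Complex.norm_real, Real.norm_of_nonneg (fr_nonneg x), fr_gt_x1_iff hx.le] at hf
  filter_upwards [h.side x hf] with w h1 h2 h3 using (h1 h2).1 h3

lemma Good.sc1 {χ : ℂ → Bool} {cp cm : Bool} (h : Good χ cp cm) : SC χ 1 (χ (-2)) := by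
  intro z hz hL hf
  have hL' : (L z).im = 2 * Real.pi := by rw [hL]; push_cast; ring
  have hE := mem_Esc_of_level hz.2 (k := 1) (by rw [hL']; push_cast; ring) hf
  have hX : z ∉ X := by
    intro hX
    obtain ⟨x, hx, rfl⟩ := mem_X_iff.mp hX
    have hx' : 0 < x := lt_of_le_of_ne hx (fun h0 => hz.2 (by rw [← h0]; simp))
    rw [L_pos hx'] at hL'
    simp at hL'
  have h1 := h.lc z hE hX
  have h2 := level_one h.lc hz hL' hf
  filter_upwards [h1] with w h3 h4 _
  rw [h3 h4, h2]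

/-- one step, upper version -/
lemma step_plus {χ : ℂ → Bool} {cp cm : Bool} (hG : Good χ cp cm) {σ : ℝ → ℂ} {a b R : ℝ} 
    (h : PathOK σ a b R) (hR : 10 ≤ R) : 
    ∃ b' ∈ Ioo a b, Good (fun w => χ (psi 0 w)) cp (χ (-2)) ∧ PathOK (fun t => f (σ t)) a b' (2 * R) ∧ 
      (∀ t ∈ Ioo a b', χ (psi 0 (f (σ t))) = χ (σ t)) ∧ χ (σ b') = χ (-2) := by
  obtain ⟨t1, ht1, hgood, hHP, hL, hre⟩ := exit h hR
  refine ⟨t1, ht1, ?_, path_image h hR ht1 hgood hHP hL hre, ?_, ?_⟩
  · exact good_psi (fun w hE hw => hG.lc w hE (HP_not_X hw)) hG.sc0 hG.sc1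
  · intro t ht
    rw [psi_f_S0 (hgood t ht)]
  · apply level_one hG.lc (HP_sub_CH hHP) hL
    rw [norm_f_eq (HP_sub_CH hHP).2]
    have := (path_image h hR ht1 hgood hHP hL hre).hR t1 (right_mem_Icc.mpr ht1.1.le)
    rw [norm_f_eq (HP_sub_CH hHP).2] at this
    linarith [x1_lt_one]

/-- one step -/
lemma step {χ : ℂ → Bool} {cp cm : Bool} (hne : cp ≠ cm) (hG : Good χ cp cm) {σ : ℝ → ℂ} {a b R : ℝ} 
    (h : PathOK σ a b R) (hR : 10 ≤ R) : 
    ∃ (χ' : ℂ → Bool) (cp' cm' : Bool) (a' b' : ℝ), cp' ≠ cm' ∧ Good χ' cp' cm' ∧ a ≤ a' ∧ b' ≤ b ∧ 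
      PathOK (fun t => f (σ t)) a' b' (2 * R) ∧ (∀ t ∈ Ioo a' b', χ' (f (σ t)) = χ (σ t)) ∧ 
      ((a' = a ∧ cp' = cp) ∨ (a' ∈ Ioo a b ∧ cp' = χ (σ a'))) ∧ 
      ((b' = b ∧ cm' = cm) ∨ (b' ∈ Ioo a b ∧ cm' = χ (σ b'))) := by
  by_cases hc : χ (-2) = cp
  · -- lower step
    have hG' := good_conj hG
    have h' := h.rev
    obtain ⟨b', hb', hG2, hP2, h3, h4⟩ := step_plus hG' h' hR
    have hm2 : (starRingEnd ℂ) (-2 : ℂ) = -2 := by rw [map_neg, map_ofNat]
    simp only [hm2] at hG2 h4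
    refine ⟨fun w => χ ((starRingEnd ℂ) (psi 0 ((starRingEnd ℂ) w))), χ (-2), cm, -b', b, ?_, ?_, ?_, le_rfl, ?_, ?_, ?_, ?_⟩
    · rw [hc]; exact hne
    · exact good_conj hG2
    · linarith [hb'.2]
    · have := hP2.rev
      simp only [f_conj, Complex.conj_conj, neg_neg] at this
      exact this
    · intro t ht
      have := h3 (-t) ⟨by linarith [ht.2], by linarith [ht.1]⟩
      simp only [neg_neg, f_conj, Complex.conj_conj] at this
      exact this
    · right
      refine ⟨⟨by linarith [hb'.2], by linarith [hb'.1]⟩, ?_⟩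
      simp only [Complex.conj_conj] at h4
      exact h4.symm
    · left; exact ⟨rfl, rfl⟩
  · obtain ⟨b', hb', hG2, hP2, h3, h4⟩ := step_plus hG h hR
    refine ⟨fun w => χ (psi 0 w), cp, χ (-2), a, b', fun h => hc h.symm, hG2, le_rfl, hb'.2.le, hP2, h3, ?_, ?_⟩
    · left; exact ⟨rfl, rfl⟩
    · right; exact ⟨hb', h4.symm⟩
end Pool.Agent.Lib.MP_74947d_an
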