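import Mathlib
import Pool.Agent.Lib.MP_74947d_an.Paths

set_option linter.style.longLine false
set_option linter.unusedVariables false

open Complex Set Filter Metric Topology

namespace Pool.Agent.Lib.MP_74947d_an

/-- the circle of radius 10 -/
noncomputable def kap (t : ℝ) : ℂ := 10 * (Real.cos t + Real.sin t * I)

lemma kap_re (t : ℝ) : (kap t).re = 10 * Real.cos t := by
  unfold kap
  simp [← Complex.ofReal_cos, ← Complex.ofReal_sin]

lemma kap_im (t : ℝ) : (kap t).im = 10 * Real.sin t := by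
  unfold kap
  simp [← Complex.ofReal_cos, ← Complex.ofReal_sin]

lemma continuous_kap : Continuous kap := by
  unfold kap
  have h1 : Continuous (fun t : ℝ => ((Real.cos t : ℝ) : ℂ)) := Complex.continuous_ofReal.comp Real.continuous_cos
  have h2 : Continuous (fun t : ℝ => ((Real.sin t : ℝ) : ℂ)) := Complex.continuous_ofReal.comp Real.continuous_sin
  fun_prop

lemma norm_kap (t : ℝ) : ‖kap t‖ = 10 := by
  have h : ‖kap t‖ ^ 2 = 10 ^ 2 := by
    rw [← Complex.normSq_eq_norm_sq, Complex.normSq_apply, kap_re, kap_im]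
    have := Real.sin_sq_add_cos_sq t
    nlinarith
  have h0 := norm_nonneg (kap t)
  nlinarith

lemma kap_zero : kap 0 = ((10:ℝ) : ℂ) := by
  apply Complex.ext
  · rw [kap_re]; simp
  · rw [kap_im]; simp

lemma kap_two_pi : kap (2 * Real.pi) = ((10:ℝ) : ℂ) := by
  apply Complex.ext
  · rw [kap_re]; simp
  · rw [kap_im]; simp

lemma ten_mem_X' : ((10:ℝ) : ℂ) ∈ X' := by
  rw [mem_X'_iff]
  exact ⟨10, by linarith [x1_lt_one], rfl⟩

lemma kap_not_X {t : ℝ} (ht : t ∈ Ioo 0 (2 * Real.pi)) : kap t ∉ X := by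
  rintro ⟨h1, h2⟩
  rw [kap_re] at h1
  rw [kap_im] at h2
  have h6 : Real.sin t = 0 := by linarith
  rcases lt_trichotomy t Real.pi with h | h | h
  · exact (Real.sin_pos_of_pos_of_lt_pi ht.1 h).ne' h6
  · rw [h, Real.cos_pi] at h1
    linarith
  · have h7 : Real.sin (t - Real.pi) = 0 := by rw [Real.sin_sub_pi, h6]; simp
    have h8 := Real.sin_pos_of_pos_of_lt_pi (x := t - Real.pi) (by linarith) (by linarith [ht.2])
    linarith

lemma kap_up {t : ℝ} (h0 : 0 < t) (h1 : t < Real.pi) : 0 < (kap t).im := by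
  rw [kap_im]
  have := Real.sin_pos_of_pos_of_lt_pi h0 h1
  linarith

lemma kap_lo {t : ℝ} (h0 : Real.pi < t) (h1 : t < 2 * Real.pi) : (kap t).im < 0 := by
  rw [kap_im]
  have h8 := Real.sin_pos_of_pos_of_lt_pi (x := t - Real.pi) (by linarith) (by linarith)
  rw [Real.sin_sub_pi] at h8
  linarith

lemma pathOK_kap : PathOK kap 0 (2 * Real.pi) 10 := by
  have hpi := Real.pi_pos
  constructor
  · linarith
  · exact continuous_kap.continuousOn
  · rw [kap_zero]; exact ten_mem_X'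
  · rw [kap_two_pi]; exact ten_mem_X'
  · intro t ht; exact kap_not_X ht
  · intro t _; rw [norm_kap]
  · filter_upwards [Ioo_mem_nhdsGT hpi] with t ht using kap_up ht.1 ht.2
  · filter_upwards [Ioo_mem_nhdsLT (show Real.pi < 2 * Real.pi by linarith)] with t ht using kap_lo ht.1 ht.2

/-- colour on the circle -/
noncomputable def tau (χ : ℂ → Bool) (cp cm : Bool) (t : ℝ) : Bool :=
  if t = 0 then cp else if t = 2 * Real.pi then cm else χ (kap t)

lemma tau_mid {χ : ℂ → Bool} {cp cm : Bool} {t : ℝ} (h0 : t ≠ 0) (h1 : t ≠ 2 * Real.pi) : 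
    tau χ cp cm t = χ (kap t) := by
  simp [tau, h0, h1]

/-- escaping times -/
def TT : Set ℝ := {t | t ∈ Icc 0 (2 * Real.pi) ∧ kap t ∈ Esc}

lemma tau_locally_const {χ : ℂ → Bool} {cp cm : Bool} (hG : Good χ cp cm) {t : ℝ} (ht : t ∈ TT) : 
    ∀ᶠ t' in 𝓝[TT] t, tau χ cp cm t' = tau χ cp cm t := by
  have hpi := Real.pi_pos
  have hs := hG.side 10 (by linarith [x1_lt_one])
  by_cases h0 : t = 0
  · subst h0
    have h1 : ∀ᶠ t' in 𝓝[TT] (0:ℝ), kap t' ∈ Esc → (0 < (kap t').im → χ (kap t') = cp) ∧ ((kap t').im < 0 → χ (kap t') = cm) := by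
      have hc := continuous_kap.tendsto 0
      rw [kap_zero] at hc
      exact (hc.eventually hs).filter_mono nhdsWithin_le_nhds
    have h2 : ∀ᶠ t' in 𝓝[TT] (0:ℝ), t' < Real.pi := (gt_mem_nhds hpi : _) |> fun h => mem_nhdsWithin_of_mem_nhds h
    filter_upwards [h1, h2, self_mem_nhdsWithin] with t' h3 h4 h5
    rcases eq_or_lt_of_le h5.1.1 with h6 | h6
    · rw [← h6]
    · rw [tau_mid h6.ne' (by linarith)]
      rw [(h3 h5.2).1 (kap_up h6 h4)]
      simp [tau]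
  by_cases h0' : t = 2 * Real.pi
  · subst h0'
    have h1 : ∀ᶠ t' in 𝓝[TT] (2 * Real.pi), kap t' ∈ Esc → (0 < (kap t').im → χ (kap t') = cp) ∧ ((kap t').im < 0 → χ (kap t') = cm) := by
      have hc := continuous_kap.tendsto (2 * Real.pi)
      rw [kap_two_pi] at hc
      exact (hc.eventually hs).filter_mono nhdsWithin_le_nhds
    have h2 : ∀ᶠ t' in 𝓝[TT] (2 * Real.pi), Real.pi < t' := 
      (lt_mem_nhds (show Real.pi < 2 * Real.pi by linarith) : _) |> fun h => mem_nhdsWithin_of_mem_nhds h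
    filter_upwards [h1, h2, self_mem_nhdsWithin] with t' h3 h4 h5
    rcases eq_or_lt_of_le h5.1.2 with h6 | h6
    · rw [h6]
    · rw [tau_mid (by linarith) h6.ne]
      rw [(h3 h5.2).2 (kap_lo h4 h6)]
      simp [tau, hpi.ne']
  · have hI : t ∈ Ioo 0 (2 * Real.pi) := ⟨lt_of_le_of_ne ht.1.1 (Ne.symm h0), lt_of_le_of_ne ht.1.2 h0'⟩
    have h1 := hG.lc (kap t) ht.2 (kap_not_X hI)
    have h2 : ∀ᶠ t' in 𝓝[TT] t, kap t' ∈ Esc → χ (kap t') = χ (kap t) := 
      ((continuous_kap.tendsto t).eventually h1).filter_mono nhdsWithin_le_nhds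
    have h3 : ∀ᶠ t' in 𝓝[TT] t, t' ∈ Ioo 0 (2 * Real.pi) := 
      mem_nhdsWithin_of_mem_nhds (Ioo_mem_nhds hI.1 hI.2)
    filter_upwards [h2, h3, self_mem_nhdsWithin] with t' h4 h5 h6
    rw [tau_mid h0 h0', tau_mid h5.1.ne' h5.2.ne, h4 h6.2]

/-- the invariant of the iteration -/
structure Inv (χ0 : ℂ → Bool) (cp0 cm0 : Bool) (n : ℕ) (χ : ℂ → Bool) (cp cm : Bool) (a b : ℝ) : Prop where
  hne : cp ≠ cm
  good : Good χ cp cm
  path : PathOK (fun t => f^[n] (kap t)) a b (2 ^ n * 10)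
  col : ∀ t ∈ Ioo a b, χ (f^[n] (kap t)) = χ0 (kap t)
  ha : cp = tau χ0 cp0 cm0 a
  hb : cm = tau χ0 cp0 cm0 b
  h0 : 0 ≤ a
  h1 : b ≤ 2 * Real.pi

lemma inv_zero {χ0 : ℂ → Bool} {cp0 cm0 : Bool} (hne : cp0 ≠ cm0) (hG : Good χ0 cp0 cm0) : 
    Inv χ0 cp0 cm0 0 χ0 cp0 cm0 0 (2 * Real.pi) := by
  constructor
  · exact hne
  · exact hG
  · simpa using pathOK_kap
  · intro t _; rfl
  · simp [tau]
  · simp [tau, Real.pi_pos.ne']
  · exact le_rfl
  · exact le_rfl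

lemma inv_step {χ0 : ℂ → Bool} {cp0 cm0 : Bool} {n : ℕ} {χ : ℂ → Bool} {cp cm : Bool} {a b : ℝ} 
    (h : Inv χ0 cp0 cm0 n χ cp cm a b) : ∃ (χ' : ℂ → Bool) (cp' cm' : Bool) (a' b' : ℝ), 
    Inv χ0 cp0 cm0 (n+1) χ' cp' cm' a' b' ∧ a ≤ a' ∧ b' ≤ b := by
  have hR : (10:ℝ) ≤ 2 ^ n * 10 := by
    have : (1:ℝ) ≤ 2 ^ n := one_le_pow₀ (by norm_num)
    linarith
  obtain ⟨χ', cp', cm', a', b', h1, h2, h3, h4, h5, h6, h7, h8⟩ := step h.hne h.good h.path hR
  refine ⟨χ', cp', cm', a', b', ?_, h3, h4⟩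
  constructor
  · exact h1
  · exact h2
  · have e1 : (fun t => f^[n+1] (kap t)) = fun t => f (f^[n] (kap t)) := by
      funext t; rw [Function.iterate_succ_apply']
    have e2 : (2:ℝ) ^ (n+1) * 10 = 2 * (2 ^ n * 10) := by ring
    rw [e1, e2]; exact h5
  · intro t ht
    rw [Function.iterate_succ_apply', h6 t ht]
    exact h.col t ⟨lt_of_le_of_lt h3 ht.1, lt_of_lt_of_le ht.2 h4⟩
  · rcases h7 with ⟨e1, e2⟩ | ⟨e1, e2⟩
    · rw [e1, e2]; exact h.ha
    · rw [e2, h.col a' e1, tau_mid (by linarith [e1.1, h.h0]) (by linarith [e1.2, h.h1])]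
  · rcases h8 with ⟨e1, e2⟩ | ⟨e1, e2⟩
    · rw [e1, e2]; exact h.hb
    · rw [e2, h.col b' e1, tau_mid (by linarith [e1.1, h.h0]) (by linarith [e1.2, h.h1])]
  · linarith [h.h0]
  · linarith [h.h1]

/-- twist lemma -/
theorem twist {χ0 : ℂ → Bool} {cp0 cm0 : Bool} (hG : Good χ0 cp0 cm0) : cp0 = cm0 := by
  by_contra hne
  -- the sequence of states
  let St := fun n : ℕ => {s : (ℂ → Bool) × Bool × Bool × ℝ × ℝ // Inv χ0 cp0 cm0 n s.1 s.2.1 s.2.2.1 s.2.2.2.1 s.2.2.2.2}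
  have hstep : ∀ n (s : St n), ∃ s' : St (n+1), s.1.2.2.2.1 ≤ s'.1.2.2.2.1 ∧ s'.1.2.2.2.2 ≤ s.1.2.2.2.2 := by
    intro n s
    obtain ⟨χ', cp', cm', a', b', h1, h2, h3⟩ := inv_step s.2
    exact ⟨⟨(χ', cp', cm', a', b'), h1⟩, h2, h3⟩
  choose nxt hn1 hn2 using hstep
  let s0 : St 0 := ⟨(χ0, cp0, cm0, 0, 2 * Real.pi), inv_zero hne hG⟩
  let S : (n : ℕ) → St n := fun n => Nat.rec s0 (fun n s => nxt n s) n
  have hS : ∀ n, S (n+1) = nxt n (S n) := fun n => rfl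
  set a : ℕ → ℝ := fun n => (S n).1.2.2.2.1 with ha
  set b : ℕ → ℝ := fun n => (S n).1.2.2.2.2 with hb
  have hinv : ∀ n, Inv χ0 cp0 cm0 n (S n).1.1 (S n).1.2.1 (S n).1.2.2.1 (a n) (b n) := fun n => (S n).2
  have hmono : Monotone a := monotone_nat_of_le_succ (fun n => by
    have := hn1 n (S n)
    rw [← hS] at this
    exact this)
  have hanti : Antitone b := antitone_nat_of_succ_le (fun n => by
    have := hn2 n (S n)
    rw [← hS] at this
    exact this)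
  have hab : ∀ n, a n < b n := fun n => (hinv n).path.hab
  have hab' : ∀ n m, a n ≤ b m := by
    intro n m
    calc a n ≤ a (max n m) := hmono (le_max_left _ _)
      _ ≤ b (max n m) := (hab _).le
      _ ≤ b m := hanti (le_max_right _ _)
  have hbdda : BddAbove (range a) := ⟨b 0, by rintro _ ⟨n, rfl⟩; exact hab' n 0⟩
  have hbddb : BddBelow (range b) := ⟨a 0, by rintro _ ⟨n, rfl⟩; exact hab' 0 n⟩
  have hta := tendsto_atTop_ciSup hmono hbdda
  have htb := tendsto_atTop_ciInf hanti hbddb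
  set A := ⨆ n, a n with hA
  set B := ⨅ n, b n with hB
  have hAB : A ≤ B := le_of_tendsto_of_tendsto' hta htb (fun n => (hab n).le)
  have haA : ∀ n, a n ≤ A := fun n => le_ciSup hbdda n
  have hBb : ∀ n, B ≤ b n := fun n => ciInf_le hbddb n
  have hin : ∀ t ∈ Icc A B, t ∈ TT := by
    intro t ht
    refine ⟨⟨?_, ?_⟩, ?_⟩
    · exact le_trans (hinv 0).h0 ((haA 0).trans ht.1)
    · exact le_trans (ht.2.trans (hBb 0)) (hinv 0).h1
    · rw [mem_Esc_iff]
      have h1 : Tendsto (fun n : ℕ => (2:ℝ) ^ n * 10) atTop atTop := 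
        (tendsto_pow_atTop_atTop_of_one_lt (by norm_num)).atTop_mul_const (by norm_num)
      apply tendsto_atTop_mono _ h1
      intro n
      exact (hinv n).path.hR t ⟨(haA n).trans ht.1, ht.2.trans (hBb n)⟩
  have haT : ∀ n, a n ∈ TT := by
    intro n
    refine ⟨⟨(hinv n).h0, ((hab n).le).trans (hinv n).h1⟩, ?_⟩
    rw [← iterate_mem_Esc_iff n]
    exact X'_sub_Esc (hinv n).path.ha
  have hbT : ∀ n, b n ∈ TT := by
    intro n
    refine ⟨⟨((hinv n).h0).trans (hab n).le, (hinv n).h1⟩, ?_⟩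
    rw [← iterate_mem_Esc_iff n]
    exact X'_sub_Esc (hinv n).path.hb
  have hA1 := tau_locally_const hG (hin A (left_mem_Icc.mpr hAB))
  have hB1 := tau_locally_const hG (hin B (right_mem_Icc.mpr hAB))
  have hta' : Tendsto a atTop (𝓝[TT] A) := tendsto_nhdsWithin_iff.mpr ⟨hta, Eventually.of_forall haT⟩
  have htb' : Tendsto b atTop (𝓝[TT] B) := tendsto_nhdsWithin_iff.mpr ⟨htb, Eventually.of_forall hbT⟩
  obtain ⟨n, hn3, hn4⟩ := ((hta'.eventually hA1).and (htb'.eventually hB1)).exists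
  have hconst : tau χ0 cp0 cm0 A = tau χ0 cp0 cm0 B := by
    apply (isPreconnected_Icc (a := A) (b := B)).constant (f := tau χ0 cp0 cm0) _ (left_mem_Icc.mpr hAB) (right_mem_Icc.mpr hAB)
    intro t ht
    have h1 := tau_locally_const hG (hin t ht)
    have h2 : ∀ᶠ t' in 𝓝[Icc A B] t, tau χ0 cp0 cm0 t' = tau χ0 cp0 cm0 t := 
      h1.filter_mono (nhdsWithin_mono t (fun s hs => hin s hs))
    exact (tendsto_const_nhds.congr' (h2.mono fun _ h => h.symm) : Tendsto _ _ _)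
  apply (hinv n).hne
  rw [(hinv n).ha, (hinv n).hb, hn3, hn4, hconst]
end Pool.Agent.Lib.MP_74947d_an
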