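import Mathlib
import Pool.Agent.Lib.MP_74947d_an.Twist

set_option linter.style.longLine false
set_option linter.unusedVariables false

open Complex Set Filter Metric Topology

namespace Pool.Agent.Lib.MP_74947d_an

lemma one_mem_X' : (1 : ℂ) ∈ X' := by
  rw [mem_X'_iff]
  exact ⟨1, x1_lt_one, by simp⟩

lemma isPreconnected_X' : IsPreconnected X' := by
  have : X' = (fun x : ℝ => (x : ℂ)) '' Ioi x1 := by
    ext z
    rw [mem_X'_iff]
    constructor
    · rintro ⟨x, hx, rfl⟩; exact ⟨x, hx, rfl⟩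
    · rintro ⟨x, hx, rfl⟩; exact ⟨x, hx, rfl⟩
  rw [this]
  exact isPreconnected_Ioi.image _ Complex.continuous_ofReal.continuousOn

lemma const_X' {χ : ℂ → Bool} (h : ∀ w ∈ Esc, LC χ w) {z : ℂ} (hz : z ∈ X') : χ z = χ 1 :=
  const_of_preconnected isPreconnected_X' X'_sub_Esc (fun w hw => h w (X'_sub_Esc hw)) hz one_mem_X'

/-- each level curve has one colour -/
lemma levels {χ : ℂ → Bool} (h : ∀ w ∈ Esc, LC χ w) (k : ℕ) : 
    ∃ g : Bool, (k = 0 → g = χ 1) ∧ ∀ z ∈ CH, (L z).im = 2 * Real.pi * k → x1 < ‖f z‖ → χ z = g := by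
  have hpi := Real.pi_pos
  rcases Nat.eq_zero_or_pos k with hk | hk
  · subst hk
    refine ⟨χ 1, fun _ => rfl, ?_⟩
    intro z hz hL hf
    simp only [CharP.cast_eq_zero, mul_zero] at hL
    obtain ⟨x, hx, rfl⟩ := L_im_eq_zero hz hL
    rw [f_ofReal', Complex.norm_real, Real.norm_of_nonneg (fr_nonneg x), fr_gt_x1_iff hx.le] at hf
    exact const_X' h (mem_X'_iff.mpr ⟨x, hf, rfl⟩)
  rcases Nat.eq_or_lt_of_le hk with hk1 | hk1
  · have hk1' : k = 1 := by omega
    subst hk1'
    refine ⟨χ (-2), by simp, ?_⟩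
    intro z hz hL hf
    exact level_one (fun w hw _ => h w hw) hz (by rw [hL]; push_cast; ring) hf
  · have hk2 : (2:ℝ) ≤ k := by exact_mod_cast hk1
    set S : Set ℂ := {ζ : ℂ | Real.log x1 < ζ.re} ∩ {ζ : ℂ | ζ.im = 2 * Real.pi * k} with hS
    have hSconv : IsPreconnected S := by
      apply Convex.isPreconnected
      exact (convex_halfSpace_re_gt _).inter (convex_hyperplane (IsLinearMap.mk Complex.add_im Complex.smul_im) _)
    have hSL : S ⊆ L '' HP := by
      intro ζ hζ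
      apply surj_upper
      have : ζ.im = 2 * Real.pi * k := hζ.2
      simp only [mem_ofPred_eq]
      rw [this]
      nlinarith
    have himg : IsPreconnected (Li '' S) := 
      hSconv.image _ (fun ζ hζ => (continuousAt_Li (hSL hζ)).continuousWithinAt)
    have hsubE : Li '' S ⊆ Esc := by
      rintro _ ⟨ζ, hζ, rfl⟩
      have h1 := Li_mem (hSL hζ)
      have h2 := L_Li (hSL hζ)
      apply mem_Esc_of_level (HP_sub_CH h1).2 (k := k) (by rw [h2]; simpa using hζ.2)
      rw [norm_f_eq (HP_sub_CH h1).2, h2]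
      have h3 : Real.log x1 < ζ.re := hζ.1
      rwa [← Real.log_lt_iff_lt_exp x1_pos]
    have hbase : ((0:ℝ) : ℂ) + (2 * Real.pi * k : ℝ) * I ∈ S := by
      constructor
      · simp only [mem_ofPred_eq]
        simp
        exact Real.log_neg x1_pos x1_lt_one
      · simp only [mem_ofPred_eq]
        simp
    refine ⟨χ (Li (((0:ℝ) : ℂ) + (2 * Real.pi * k : ℝ) * I)), by omega, ?_⟩
    intro z hz hL hf
    have hzHP : z ∈ HP := by
      rcases lt_or_eq_of_le hz.1 with h3 | h3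
      · exact h3
      · exfalso
        obtain ⟨x, hx, rfl⟩ := CH_real hz h3.symm
        rcases lt_or_gt_of_ne hx with h4 | h4
        · rw [L_neg h4] at hL
          simp at hL
          nlinarith
        · rw [L_pos h4] at hL
          rw [Complex.ofReal_im] at hL
          nlinarith
    have hLS : L z ∈ S := by
      refine ⟨?_, hL⟩
      rw [norm_f_eq hz.2] at hf
      simp only [mem_ofPred_eq]
      rwa [Real.log_lt_iff_lt_exp x1_pos]
    apply const_of_preconnected himg hsubE (fun w hw => h w (hsubE hw)) ⟨L z, hLS, Li_L hzHP⟩ ⟨_, hbase, rfl⟩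

lemma SC_level {χ : ℂ → Bool} (h : ∀ w ∈ Esc, LC χ w) {k : ℕ} {g : Bool} 
    (hg : ∀ z ∈ CH, (L z).im = 2 * Real.pi * k → x1 < ‖f z‖ → χ z = g) : SC χ k g := by
  intro z hz hL hf
  have hE : z ∈ Esc := mem_Esc_of_level hz.2 (k := k) (by rw [hL]; push_cast; ring) hf
  filter_upwards [h z hE] with w h1 h2 h3
  rw [h1 h2, hg z hz hL hf]

lemma levels_eq {χ : ℂ → Bool} (h : ∀ w ∈ Esc, LC χ w) (k : ℕ) : 
    ∀ z ∈ CH, (L z).im = 2 * Real.pi * k → x1 < ‖f z‖ → χ z = χ 1 := by
  induction k with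
  | zero => 
    obtain ⟨g, hg0, hg⟩ := levels h 0
    rw [hg0 rfl] at hg
    exact hg
  | succ k ih =>
    obtain ⟨g, _, hg⟩ := levels h (k+1)
    have h1 : SC χ k (χ 1) := SC_level h ih
    have h2 : SC χ (k+1) g := SC_level h hg
    have h3 := twist (good_psi (fun w hw _ => h w hw) h1 h2)
    rw [h3]; exact hg

lemma good_cell {χ : ℂ → Bool} (h : ∀ w ∈ Esc, LC χ w) (k : ℕ) : Good (fun w => χ (psi k w)) (χ 1) (χ 1) :=
  good_psi (fun w hw _ => h w hw) (SC_level h (levels_eq h k)) (SC_level h (levels_eq h (k+1)))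

lemma LC_conj_all {χ : ℂ → Bool} (h : ∀ w ∈ Esc, LC χ w) : ∀ w ∈ Esc, LC (fun w => χ ((starRingEnd ℂ) w)) w :=
  fun w hw => LC_conj (h _ (conj_mem_Esc.mpr hw))

lemma key_upper {χ : ℂ → Bool} (h : ∀ w ∈ Esc, LC χ w) {y : ℂ} (hy : f y ∈ X') (h0 : 0 ≤ y.im) : χ y = χ 1 := by
  have hne : y ≠ 0 := by
    rintro rfl
    have := hy.1
    simp [f] at this
    linarith [x1_pos]
  have hCH : y ∈ CH := ⟨h0, hne⟩
  obtain ⟨x, hx, hfx⟩ := mem_X'_iff.mp hy
  have hx0 : 0 < x := x1_pos.trans hx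
  have h1 : Complex.exp (L y) = Complex.exp (Real.log x : ℂ) := by
    rw [exp_L hne, hfx, ← Complex.ofReal_exp, Real.exp_log hx0]
  rw [Complex.exp_eq_exp_iff_exists_int] at h1
  obtain ⟨n, hn⟩ := h1
  have him : (L y).im = 2 * Real.pi * n := by
    rw [hn]; simp; ring
  have hpi := Real.pi_pos
  have h2 := L_im_ge hCH
  have hn0 : 0 ≤ n := by
    by_contra hlt
    push Not at hlt
    have : (n:ℝ) ≤ -1 := by exact_mod_cast Int.le_sub_one_of_lt hlt
    nlinarith
  obtain ⟨k, rfl⟩ := Int.eq_ofNat_of_zero_le hn0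
  apply levels_eq h k y hCH (by rw [him]; push_cast; rfl)
  rw [hfx, Complex.norm_real, Real.norm_of_nonneg hx0.le]
  exact hx

lemma key {χ : ℂ → Bool} (h : ∀ w ∈ Esc, LC χ w) {y : ℂ} (hy : f y ∈ X') : χ y = χ 1 := by
  rcases le_or_gt 0 y.im with h0 | h0
  · exact key_upper h hy h0
  · have h1 := key_upper (LC_conj_all h) (y := (starRingEnd ℂ) y) (by rw [f_conj, conj_mem_X']; exact hy) 
      (by simp; linarith)
    simpa using h1

/-- transfer -/
lemma LC_transfer {χ : ℂ → Bool} (h : ∀ w ∈ Esc, LC χ w) (k : ℕ) : 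
    ∃ χ' : ℂ → Bool, (∀ w ∈ Esc, LC χ' w) ∧ χ' 1 = χ 1 ∧ ∀ w, w ∉ X → χ' w = χ (psi k w) := by
  classical
  refine ⟨fun w => if w ∈ X then χ 1 else χ (psi k w), ?_, ?_, ?_⟩
  · intro w hw
    have hg := good_cell h k
    by_cases hX : w ∈ X
    · obtain ⟨x, hx, rfl⟩ := mem_X'_iff.mp (X_inter_Esc hX hw)
      have h1 := hg.side x hx
      have h2 : ∀ᶠ w' in 𝓝 (x:ℂ), 0 < w'.re := by
        have : (0:ℝ) < (x:ℂ).re := by simpa using x1_pos.trans hx
        exact continuousAt_const.eventually_lt Complex.continuous_re.continuousAt this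
      unfold LC
      filter_upwards [h1, h2] with w' h3 h4 h5
      simp only [hX, if_true]
      by_cases h6 : w' ∈ X
      · simp [h6]
      · simp only [h6, if_false]
        have h7 : w'.im ≠ 0 := fun h8 => h6 ⟨h4.le, h8⟩
        rcases lt_or_gt_of_ne h7 with h8 | h8
        · exact (h3 h5).2 h8
        · exact (h3 h5).1 h8
    · have h1 := hg.lc w hw hX
      have h3 : ∀ᶠ w' in 𝓝 w, w' ∉ X := isClosed_X.isOpen_compl.mem_nhds hX
      unfold LC at h1 ⊢
      filter_upwards [h1, h3] with w' h4 h5 h6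
      simp only [hX, h5, if_false]
      exact h4 h6
  · simp [X'_sub_X one_mem_X']
  · intro w hw
    simp [hw]

lemma real_f_mem_X {y : ℂ} (h : y.im = 0) : f y ∈ X := by
  have : y = (y.re : ℂ) := Complex.ext (by simp) (by simp [h])
  rw [this, f_ofReal', mem_X_iff]
  exact ⟨_, fr_nonneg _, rfl⟩

/-- preimages of all orders of the escaping half line have one colour -/
theorem preimages (n : ℕ) : ∀ (χ : ℂ → Bool), (∀ w ∈ Esc, LC χ w) → ∀ y, f^[n] y ∈ X' → χ y = χ 1 := by
  induction n with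
  | zero => 
    intro χ h y hy
    exact const_X' h hy
  | succ n ih =>
    intro χ h y hy
    rw [Function.iterate_succ_apply] at hy
    have hE : f y ∈ Esc := (iterate_mem_Esc_iff n).mp (X'_sub_Esc hy)
    by_cases hX : f y ∈ X
    · exact key h (X_inter_Esc hX hE)
    · have him : y.im ≠ 0 := fun h0 => hX (real_f_mem_X h0)
      rcases lt_or_gt_of_ne him with h0 | h0
      · -- lower
        have hc := LC_conj_all h
        have hHP : (starRingEnd ℂ) y ∈ HP := by simp [HP, h0]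
        have hX' : f ((starRingEnd ℂ) y) ∉ X := by rw [f_conj, conj_mem_X]; exact hX
        obtain ⟨k, hk⟩ := exists_cell hHP hX'
        obtain ⟨χ', h1, h2, h3⟩ := LC_transfer hc k
        have h4 := ih χ' h1 (f ((starRingEnd ℂ) y)) (by rw [f_conj, iterate_conj, conj_mem_X']; exact hy)
        rw [h2, h3 _ hX', hk] at h4
        simpa using h4
      · obtain ⟨k, hk⟩ := exists_cell (z := y) h0 hX
        obtain ⟨χ', h1, h2, h3⟩ := LC_transfer h k
        have h4 := ih χ' h1 (f y) hy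
        rw [h2, h3 _ hX, hk] at h4
        exact h4
end Pool.Agent.Lib.MP_74947d_an
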