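import Mathlib
import Pool.Agent.Lib.MP_74947d_an.Key

set_option linter.style.longLine false
set_option linter.unusedVariables false

open Complex Set Filter Metric Topology

namespace Pool.Agent.Lib.MP_74947d_an

/-- Schwarz type bound -/
lemma schwarz_bound {F : ℂ → ℂ} (hF : Differentiable ℂ F) {p : ℂ} {r : ℝ} (hr : 0 < r) 
    (h : ∀ y ∈ ball p r, F y ∉ X') : ‖deriv F p‖ ≤ 4 * ‖1 - F p‖ / r := by
  have hslit : ∀ y ∈ ball p r, 1 - F y ∈ slitPlane := by
    intro y hy
    rw [mem_slitPlane_iff]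
    by_contra hc
    push Not at hc
    apply h y hy
    have h1 := hc.1
    have h2 := hc.2
    simp only [sub_re, one_re, sub_im, one_im] at h1 h2
    exact ⟨by linarith [x1_lt_one], by linarith⟩
  set g : ℂ → ℂ := fun y => Complex.exp (Complex.log (1 - F y) / 2) with hg
  have hgd : ∀ y ∈ ball p r, DifferentiableAt ℂ g y := by
    intro y hy
    have h1 : DifferentiableAt ℂ (fun y => 1 - F y) y := (hF y).const_sub 1
    have h2 : DifferentiableAt ℂ (fun y => Complex.log (1 - F y)) y := h1.clog (hslit y hy)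
    exact (h2.div_const 2).cexp
  have hgsq : ∀ y ∈ ball p r, g y ^ 2 = 1 - F y := by
    intro y hy
    rw [hg]
    simp only
    rw [← Complex.exp_nat_mul]
    have : ((2:ℕ):ℂ) * (Complex.log (1 - F y) / 2) = Complex.log (1 - F y) := by push_cast; ring
    rw [this, Complex.exp_log (slitPlane_ne_zero (hslit y hy))]
  have hgre : ∀ y ∈ ball p r, 0 < (g y).re := by
    intro y hy
    rw [hg]
    simp only
    rw [Complex.exp_re]
    apply mul_pos (Real.exp_pos _)
    have h1 := Complex.neg_pi_lt_arg (1 - F y)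
    have h2 : Complex.arg (1 - F y) < Real.pi := 
      lt_of_le_of_ne (Complex.arg_le_pi _) (Complex.slitPlane_arg_ne_pi (hslit y hy))
    apply Real.cos_pos_of_mem_Ioo
    have h3 : (Complex.log (1 - F y) / 2).im = Complex.arg (1 - F y) / 2 := by
      have : (Complex.log (1 - F y) / 2) = Complex.log (1 - F y) / ((2:ℝ):ℂ) := by push_cast; rfl
      rw [this, Complex.div_ofReal_im, Complex.log_im]
    rw [h3]
    constructor <;> linarith
  have hp : p ∈ ball p r := mem_ball_self hr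
  set s := g p with hs
  have hsre : 0 < s.re := hgre p hp
  set k : ℂ → ℂ := fun y => (g y - s) / (g y + (starRingEnd ℂ) s) with hk
  have hden : ∀ y ∈ ball p r, g y + (starRingEnd ℂ) s ≠ 0 := by
    intro y hy h0
    have := congrArg Complex.re h0
    simp only [add_re, conj_re, zero_re] at this
    linarith [hgre y hy]
  have hkd : DifferentiableOn ℂ k (ball p r) := by
    intro y hy
    apply DifferentiableAt.differentiableWithinAt
    exact ((hgd y hy).sub_const s).div ((hgd y hy).add_const _) (hden y hy)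
  have hkp : k p = 0 := by simp [hk, hs]
  have hmaps : MapsTo k (ball p r) (ball (k p) 1) := by
    intro y hy
    rw [hkp, mem_ball_zero_iff, hk]
    simp only
    rw [norm_div, div_lt_one (norm_pos_iff.mpr (hden y hy))]
    apply lt_of_pow_lt_pow_left₀ 2 (norm_nonneg _)
    rw [← Complex.normSq_eq_norm_sq, ← Complex.normSq_eq_norm_sq, Complex.normSq_apply, Complex.normSq_apply]
    simp only [sub_re, sub_im, add_re, add_im, conj_re, conj_im]
    have := mul_pos (hgre y hy) hsre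
    nlinarith
  have hb := Complex.norm_deriv_le_div_of_mapsTo_ball hkd (hmaps.mono_right ball_subset_closedBall) hr
  have hkder : deriv k p = deriv g p / (s + (starRingEnd ℂ) s) := by
    have h1 : HasDerivAt g (deriv g p) p := (hgd p hp).hasDerivAt
    have h2 := (h1.sub_const s).div (h1.add_const ((starRingEnd ℂ) s)) (hden p hp)
    have h3 : deriv k p = _ := h2.deriv
    rw [h3]
    have h4 : s + (starRingEnd ℂ) s ≠ 0 := hden p hp
    rw [← hs]
    field_simp
    ring
  rw [hkder, Complex.add_conj, norm_div] at hb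
  have hn : ‖((2 * s.re : ℝ) : ℂ)‖ = 2 * s.re := by
    rw [Complex.norm_real, Real.norm_of_nonneg (by positivity)]
  rw [hn, div_le_iff₀ (by positivity)] at hb
  have hle : s.re ≤ ‖s‖ := Complex.re_le_norm s
  have hFder : deriv F p = -(2 * s * deriv g p) := by
    have h1 : HasDerivAt g (deriv g p) p := (hgd p hp).hasDerivAt
    have h2 : HasDerivAt (fun y => 1 - g y ^ 2) (-(2 * s * deriv g p)) p := by
      have := (h1.pow 2).const_sub 1
      simpa using this
    have h3 : F =ᶠ[𝓝 p] fun y => 1 - g y ^ 2 := by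
      filter_upwards [isOpen_ball.mem_nhds hp] with y hy
      rw [hgsq y hy]; ring
    rw [h3.deriv_eq, h2.deriv]
  rw [hFder, norm_neg, norm_mul, norm_mul]
  have e1 : ‖1 - F p‖ = ‖s‖ ^ 2 := by rw [← hgsq p hp, norm_pow]
  rw [e1]
  have e2 : ‖(2:ℂ)‖ = 2 := by simp
  rw [e2]
  calc 2 * ‖s‖ * ‖deriv g p‖ ≤ 2 * ‖s‖ * (1 / r * (2 * s.re)) := by gcongr
    _ ≤ 2 * ‖s‖ * (1 / r * (2 * ‖s‖)) := by gcongr
    _ = 4 * ‖s‖ ^ 2 / r := by ring

lemma hasDerivAt_f {z : ℂ} (hz : z ≠ 0) : HasDerivAt f (f z * (1 + 2 / z)) z := by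
  have h1 : HasDerivAt (fun z : ℂ => z ^ 2) (2 * z) z := by simpa using hasDerivAt_pow 2 z
  have h2 : HasDerivAt (fun z : ℂ => Complex.exp (z + 2)) (Complex.exp (z + 2)) z := by
    simpa using ((hasDerivAt_id z).add_const 2).cexp
  have h3 : HasDerivAt f (2 * z * Complex.exp (z + 2) + z ^ 2 * Complex.exp (z + 2)) z := h1.mul h2
  convert h3 using 1
  unfold f
  field_simp
  ring

lemma differentiable_iterate (n : ℕ) : Differentiable ℂ (f^[n]) := differentiable_f.iterate n

lemma deriv_iterate_succ {p : ℂ} (n : ℕ) (hne : f^[n] p ≠ 0) : 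
    ‖deriv (f^[n+1]) p‖ = ‖f^[n+1] p‖ * ‖1 + 2 / f^[n] p‖ * ‖deriv (f^[n]) p‖ := by
  have h1 : HasDerivAt (f^[n]) (deriv (f^[n]) p) p := (differentiable_iterate n p).hasDerivAt
  have h2 := hasDerivAt_f hne
  have h3 := h2.comp p h1
  have h4 : f^[n+1] = f ∘ f^[n] := Function.iterate_succ' f n
  rw [h4, h3.deriv, norm_mul, norm_mul]
  rfl

/-- density of preimages of the escaping half line -/
theorem density {p : ℂ} (hp : p ∈ Esc) {O : Set ℂ} (hO : IsOpen O) (hpO : p ∈ O) : 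
    ∃ n, ∃ y ∈ O, f^[n] y ∈ X' := by
  by_contra hcon
  push Not at hcon
  obtain ⟨r, hr, hball⟩ := Metric.isOpen_iff.mp hO p hpO
  have hX : ∀ n, ∀ y ∈ ball p r, f^[n] y ∉ X' := fun n y hy => hcon n y (hball hy)
  have hpX : ∀ n, f^[n] p ∉ X' := fun n => hcon n p hpO
  have hb : ∀ n, ‖deriv (f^[n]) p‖ ≤ 4 * ‖1 - f^[n] p‖ / r := fun n => 
    schwarz_bound (differentiable_iterate n) hr (hX n)
  have hne0 : ∀ n, f^[n] p ≠ 0 := by
    intro n h0
    have : (0:ℂ) ∈ Esc := by rw [← h0]; exact (iterate_mem_Esc_iff n).mpr hp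
    have h2 := not_mem_Esc_of_le (x := 0) le_rfl x1_pos.le
    simp at h2
    exact h2 this
  have hne2 : ∀ n, f^[n] p ≠ -2 := by
    intro n h0
    apply hpX (n+1)
    rw [Function.iterate_succ_apply', h0, mem_X'_iff]
    refine ⟨4, by linarith [x1_lt_one], ?_⟩
    unfold f
    norm_num
  have hpos : ∀ n, 0 < ‖deriv (f^[n]) p‖ := by
    intro n
    induction n with
    | zero => simp
    | succ n ih =>
      rw [deriv_iterate_succ n (hne0 n)]
      have h1 := norm_pos_iff.mpr (hne0 (n+1))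
      have h2 : 0 < ‖1 + 2 / f^[n] p‖ := by
        rw [norm_pos_iff]
        intro h3
        apply hne2 n
        have := hne0 n
        field_simp at h3
        linear_combination h3
      positivity
  -- growth
  have hesc := mem_Esc_iff.mp hp
  obtain ⟨N, hN⟩ := eventually_atTop.mp (hesc.eventually_ge_atTop 4)
  have hhalf : ∀ n, N ≤ n → 1 / 2 ≤ ‖1 + 2 / f^[n] p‖ := by
    intro n hn
    have h1 := hN n hn
    have h2 : ‖2 / f^[n] p‖ ≤ 1 / 2 := by
      rw [norm_div, Complex.norm_two, div_le_iff₀ (by linarith)]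
      linarith
    have h3 : ‖(1:ℂ)‖ - ‖-(2 / f^[n] p)‖ ≤ ‖1 - -(2 / f^[n] p)‖ := norm_sub_norm_le _ _
    rw [norm_neg, sub_neg_eq_add, norm_one] at h3
    linarith
  have hstep : ∀ n, N ≤ n → 1 / 2 * ‖f^[n+1] p‖ * ‖deriv (f^[n]) p‖ ≤ ‖deriv (f^[n+1]) p‖ := by
    intro n hn
    rw [deriv_iterate_succ n (hne0 n)]
    have h1 := hhalf n hn
    have h2 := norm_nonneg (f^[n+1] p)
    have h3 := norm_nonneg (deriv (f^[n]) p)
    calc 1 / 2 * ‖f^[n+1] p‖ * ‖deriv (f^[n]) p‖ = ‖f^[n+1] p‖ * (1/2) * ‖deriv (f^[n]) p‖ := by ring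
      _ ≤ _ := by gcongr
  have hbd : ∀ n, N ≤ n → ‖deriv (f^[n]) p‖ ≤ 16 / r := by
    intro n hn
    have h1 := hstep n hn
    have h2 := hb (n+1)
    have h4 := hN (n+1) (by omega)
    have h3 : ‖1 - f^[n+1] p‖ ≤ 2 * ‖f^[n+1] p‖ := by
      calc ‖1 - f^[n+1] p‖ ≤ ‖(1:ℂ)‖ + ‖f^[n+1] p‖ := norm_sub_le _ _
        _ ≤ _ := by rw [norm_one]; linarith
    have h5 : 1 / 2 * ‖f^[n+1] p‖ * ‖deriv (f^[n]) p‖ ≤ 4 * (2 * ‖f^[n+1] p‖) / r := by
      calc _ ≤ _ := h1
        _ ≤ _ := h2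
        _ ≤ _ := by gcongr
    have h6 : 0 < ‖f^[n+1] p‖ := by linarith
    rw [le_div_iff₀ hr] at h5 ⊢
    have h7 : ‖f^[n+1] p‖ * (‖deriv (f^[n]) p‖ * r) ≤ ‖f^[n+1] p‖ * 16 := by linarith
    exact le_of_mul_le_mul_left h7 h6
  have hdouble : ∀ n, N ≤ n → 2 * ‖deriv (f^[n]) p‖ ≤ ‖deriv (f^[n+1]) p‖ := by
    intro n hn
    have h1 := hstep n hn
    have h4 := hN (n+1) (by omega)
    have h3 := norm_nonneg (deriv (f^[n]) p)
    nlinarith
  have hgrow : ∀ m, 2 ^ m * ‖deriv (f^[N]) p‖ ≤ ‖deriv (f^[N+m]) p‖ := by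
    intro m
    induction m with
    | zero => simp
    | succ m ih =>
      have := hdouble (N+m) (by omega)
      rw [← add_assoc, pow_succ]
      linarith
  have ht : Tendsto (fun m : ℕ => (2:ℝ) ^ m * ‖deriv (f^[N]) p‖) atTop atTop := 
    (tendsto_pow_atTop_atTop_of_one_lt (by norm_num)).atTop_mul_const (hpos N)
  obtain ⟨m, hm⟩ := (ht.eventually_gt_atTop (16 / r)).exists
  have := hgrow m
  have := hbd (N+m) (by omega)
  linarith

theorem const_Esc {χ : ℂ → Bool} (h : ∀ w ∈ Esc, LC χ w) {p : ℂ} (hp : p ∈ Esc) : χ p = χ 1 := by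
  obtain ⟨O, hO1, hO2, hpO⟩ := _root_.mem_nhds_iff.mp (h p hp)
  obtain ⟨n, y, hyO, hy⟩ := density hp hO2 hpO
  have hyE : y ∈ Esc := (iterate_mem_Esc_iff n).mp (X'_sub_Esc hy)
  have h1 : χ y = χ p := hO1 hyO hyE
  rw [← h1]
  exact preimages n χ h y hy

theorem isConnected_Esc : IsConnected Esc := by
  classical
  refine ⟨⟨1, X'_sub_Esc one_mem_X'⟩, ?_⟩
  rw [isPreconnected_iff_subset_of_disjoint]
  intro u v hu hv hsub hdis
  set χ : ℂ → Bool := fun w => decide (w ∈ u) with hχ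
  have hLC : ∀ w ∈ Esc, LC χ w := by
    intro w hw
    rcases hsub hw with h1 | h1
    · unfold LC
      filter_upwards [hu.mem_nhds h1] with w' h2 _
      simp only [hχ, h1, h2]
    · unfold LC
      filter_upwards [hv.mem_nhds h1] with w' h2 h3
      have h4 : w ∉ u := fun h5 => by
        have : w ∈ Esc ∩ (u ∩ v) := ⟨hw, h5, h1⟩
        rw [hdis] at this; exact this
      have h6 : w' ∉ u := fun h5 => by
        have : w' ∈ Esc ∩ (u ∩ v) := ⟨h3, h5, h2⟩
        rw [hdis] at this; exact this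
      simp only [hχ, h4, h6]
  by_cases h1 : (1:ℂ) ∈ u
  · left
    intro w hw
    have := const_Esc hLC hw
    simpa [hχ, h1] using this
  · right
    intro w hw
    have h2 := const_Esc hLC hw
    have h3 : w ∉ u := by simpa [hχ, h1] using h2
    exact (hsub hw).resolve_left h3
end Pool.Agent.Lib.MP_74947d_an
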